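import Pool.Agent.Work.MP_ecc80d_co.Lower.Kappa

/-!
# The cost estimate
-/

namespace Pool.Agent.RandomMakerLower

open Finset Real

lemma kk_succ (T j : ℕ) : kk T (j + 1) = kk T j * (((T : ℝ) - 2 * j) / ((T : ℝ) - 2 * j - 1)) := by
  rw [kk, kk, prod_range_succ]

lemma kk_sq_upper {T : ℕ} : ∀ {j : ℕ}, 2 * j ≤ T → kk T j ^ 2 * ((T : ℝ) - 2 * j) ≤ T
  | 0, _ => by simp [kk]
  | j + 1, h => by
    have ih := kk_sq_upper (T := T) (j := j) (by omega)
    have hn : (2 : ℝ) ≤ (T : ℝ) - 2 * j := by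
      have : (2 : ℝ) * j + 2 ≤ T := by exact_mod_cast (by omega : 2 * j + 2 ≤ T)
      linarith
    rw [kk_succ]
    set n : ℝ := (T : ℝ) - 2 * j with hn'
    have e1 : (T : ℝ) - 2 * ((j + 1 : ℕ) : ℝ) = n - 2 := by rw [hn']; push_cast; ring
    rw [e1]
    have h1 : (n / (n - 1)) ^ 2 * (n - 2) ≤ n := by
      rw [div_pow, div_mul_eq_mul_div, div_le_iff₀ (by nlinarith)]
      nlinarith
    calc (kk T j * (n / (n - 1))) ^ 2 * (n - 2) = kk T j ^ 2 * ((n / (n - 1)) ^ 2 * (n - 2)) := by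
          ring
      _ ≤ kk T j ^ 2 * n := by gcongr
      _ ≤ T := ih

lemma kk_sq_lower {T : ℕ} : ∀ {j : ℕ}, 2 * j ≤ T →
    (T : ℝ) + 1 ≤ kk T j ^ 2 * ((T : ℝ) - 2 * j + 1)
  | 0, _ => by simp [kk]
  | j + 1, h => by
    have ih := kk_sq_lower (T := T) (j := j) (by omega)
    have hn : (2 : ℝ) ≤ (T : ℝ) - 2 * j := by
      have : (2 : ℝ) * j + 2 ≤ T := by exact_mod_cast (by omega : 2 * j + 2 ≤ T)
      linarith
    rw [kk_succ]
    set n : ℝ := (T : ℝ) - 2 * j with hn'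
    have e1 : (T : ℝ) - 2 * ((j + 1 : ℕ) : ℝ) + 1 = n - 1 := by rw [hn']; push_cast; ring
    rw [e1]
    have h1 : n + 1 ≤ (n / (n - 1)) ^ 2 * (n - 1) := by
      have : (n / (n - 1)) ^ 2 * (n - 1) = n ^ 2 / (n - 1) := by
        have : n - 1 ≠ 0 := by linarith
        field_simp
      rw [this, le_div_iff₀ (by linarith)]
      nlinarith
    calc (T : ℝ) + 1 ≤ kk T j ^ 2 * (n + 1) := ih
      _ ≤ kk T j ^ 2 * ((n / (n - 1)) ^ 2 * (n - 1)) := by gcongr
      _ = _ := by ring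

lemma kk_le_three {T j : ℕ} (hT : 1 ≤ T) (hj : j ≤ 4 * T / 9) : kk T j ≤ 3 := by
  have h1 : 9 * j ≤ 4 * T := by omega
  have h1' : (9 : ℝ) * j ≤ 4 * T := by exact_mod_cast h1
  have hT' : (1 : ℝ) ≤ T := by exact_mod_cast hT
  have h2 := kk_sq_upper (T := T) (j := j) (by omega)
  have h3 : (T : ℝ) / 9 ≤ (T : ℝ) - 2 * j := by linarith
  have h4 : kk T j ^ 2 * ((T : ℝ) / 9) ≤ T := le_trans (by gcongr) h2
  have h5 : kk T j ^ 2 ≤ 9 := by nlinarith
  have h6 : 1 ≤ kk T j := one_le_kk (by omega)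
  nlinarith

lemma one_lt_kk {T j : ℕ} (hj1 : 1 ≤ j) (hj : 2 * j ≤ T) : 1 < kk T j := by
  have h2 := kk_sq_lower (T := T) (j := j) hj
  have h6 : 1 ≤ kk T j := one_le_kk hj
  have h7 : (1 : ℝ) ≤ j := by exact_mod_cast hj1
  have h8 : (2 : ℝ) * j ≤ T := by exact_mod_cast hj
  by_contra hcon
  push Not at hcon
  have : kk T j = 1 := le_antisymm hcon h6
  rw [this] at h2
  linarith

/-- the cost function -/
noncomputable def hh (r : ℝ) : ℝ := log 2 + log r - log (1 - r)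

/-- an antiderivative of `r * hh r` -/
noncomputable def Gam (r : ℝ) : ℝ :=
  r ^ 2 / 2 * log 2 + r ^ 2 / 2 * log r + (1 - r ^ 2) / 2 * log (1 - r) + r / 2

lemma hh_mono {a b : ℝ} (ha : 0 < a) (hab : a ≤ b) (hb : b < 1) : hh a ≤ hh b := by
  unfold hh
  have h1 : log a ≤ log b := log_le_log ha hab
  have h2 : log (1 - b) ≤ log (1 - a) := log_le_log (by linarith) (by linarith)
  linarith

lemma hasDerivAt_Gam {r : ℝ} (h0 : 0 < r) (h1 : r < 1) : HasDerivAt Gam (r * hh r) r := by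
  have d1 : HasDerivAt (fun x : ℝ => x ^ 2 / 2) r r := by
    have := (hasDerivAt_pow 2 r).div_const 2
    simpa using this
  have d2 : HasDerivAt (fun x : ℝ => log x) r⁻¹ r := Real.hasDerivAt_log h0.ne'
  have d3 : HasDerivAt (fun x : ℝ => 1 - x) (-1) r := by
    simpa using (hasDerivAt_id r).const_sub 1
  have d4 : HasDerivAt (fun x : ℝ => log (1 - x)) (-1 / (1 - r)) r :=
    d3.log (by linarith)
  have d5 : HasDerivAt (fun x : ℝ => (1 - x ^ 2) / 2) (-r) r := by
    have := ((hasDerivAt_pow 2 r).const_sub 1).div_const 2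
    refine this.congr_deriv ?_
    norm_num
    ring
  have d6 := (((d1.mul_const (log 2)).add (d1.mul d2)).add (d5.mul d4)).add
    ((hasDerivAt_id r).div_const 2)
  have hval : r * log 2 + (r * log r + r ^ 2 / 2 * r⁻¹) +
      (-r * log (1 - r) + (1 - r ^ 2) / 2 * (-1 / (1 - r))) + 1 / 2 = r * hh r := by
    unfold hh
    have : (1 - r) ≠ 0 := by linarith
    have : r ≠ 0 := h0.ne'
    field_simp
    ring
  rw [← hval]
  exact d6

lemma step_le {a b : ℝ} (ha : 0 < a) (hab : a ≤ b) (hb : b < 1) :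
    hh a * ((b ^ 2 - a ^ 2) / 2) ≤ Gam b - Gam a := by
  have hmono : MonotoneOn (fun r => Gam r - hh a * (r ^ 2 / 2)) (Set.Icc a b) := by
    apply monotoneOn_of_deriv_nonneg (convex_Icc a b)
    · apply ContinuousOn.sub
      · intro x hx
        exact (hasDerivAt_Gam (lt_of_lt_of_le ha hx.1)
          (lt_of_le_of_lt hx.2 hb)).continuousAt.continuousWithinAt
      · fun_prop
    · intro x hx
      rw [interior_Icc] at hx
      apply DifferentiableAt.differentiableWithinAt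
      apply DifferentiableAt.sub
      · exact (hasDerivAt_Gam (lt_trans ha hx.1) (lt_trans hx.2 hb)).differentiableAt
      · fun_prop
    · intro x hx
      rw [interior_Icc] at hx
      have hx0 : 0 < x := lt_trans ha hx.1
      have hx1 : x < 1 := lt_trans hx.2 hb
      have d1 : HasDerivAt (fun x : ℝ => x ^ 2 / 2) x x := by
        have := (hasDerivAt_pow 2 x).div_const 2
        simpa using this
      have d := (hasDerivAt_Gam hx0 hx1).sub (d1.const_mul (hh a))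
      have d' : deriv (fun r => Gam r - hh a * (r ^ 2 / 2)) x = x * hh x - hh a * x := d.deriv
      rw [d']
      have := hh_mono ha hx.1.le hx1
      nlinarith
  have := hmono (Set.left_mem_Icc.mpr hab) (Set.right_mem_Icc.mpr hab) hab
  simp only at this
  nlinarith

lemma Gam_upper {r : ℝ} (h0 : 0 < r) (h1 : r < 1) : Gam r ≤ log 2 / 2 + 1 / 2 := by
  unfold Gam
  have h2 : 0 < log 2 := log_pos (by norm_num)
  have h3 : log r ≤ 0 := log_nonpos h0.le h1.le
  have h4 : log (1 - r) ≤ 0 := log_nonpos (by linarith) (by linarith)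
  have h5 : r ^ 2 ≤ 1 := by nlinarith
  have e1 : r ^ 2 / 2 * log 2 ≤ log 2 / 2 := by nlinarith
  have e2 : r ^ 2 / 2 * log r ≤ 0 := mul_nonpos_of_nonneg_of_nonpos (by positivity) h3
  have e3 : (1 - r ^ 2) / 2 * log (1 - r) ≤ 0 :=
    mul_nonpos_of_nonneg_of_nonpos (by linarith) h4
  linarith

lemma hh_third : hh (1 / 3) = 0 := by
  unfold hh
  rw [← log_mul (by norm_num) (by norm_num), ← log_div (by norm_num) (by norm_num)]
  norm_num

lemma Gam_third_le {r : ℝ} (h0 : 1 / 3 ≤ r) (h1 : r < 1) : Gam (1 / 3) ≤ Gam r := by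
  have := step_le (a := 1 / 3) (b := r) (by norm_num) h0 h1
  rw [hh_third] at this
  linarith

lemma Gam_diff : log 2 / 2 + 1 / 2 - Gam (1 / 3) = 1 / 3 + log 3 / 2 := by
  unfold Gam
  have e1 : log (1 / 3 : ℝ) = - log 3 := by rw [log_div (by norm_num) (by norm_num)]; simp
  have e2 : log (1 - 1 / 3 : ℝ) = log 2 - log 3 := by
    rw [← log_div (by norm_num) (by norm_num)]; norm_num
  rw [e1, e2]
  ring

lemma log_three_lt : log 3 < 1.09863 := by
  have h1 : (12 : ℝ) * log 3 = 19 * log 2 + log (531441 / 524288) := by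
    rw [log_div (by norm_num) (by norm_num)]
    have a1 : log (531441 : ℝ) = 12 * log 3 := by
      rw [show (531441 : ℝ) = 3 ^ 12 by norm_num, log_pow]; norm_num
    have a2 : log (524288 : ℝ) = 19 * log 2 := by
      rw [show (524288 : ℝ) = 2 ^ 19 by norm_num, log_pow]; norm_num
    rw [a1, a2]; ring
  have h2 : log (531441 / 524288 : ℝ) ≤ 531441 / 524288 - 1 := log_le_sub_one_of_pos (by norm_num)
  have h3 := Real.log_two_lt_d9
  norm_num at h2 h3 ⊢
  linarith

/-- the values `r_i` -/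
noncomputable def rr (T i : ℕ) : ℝ := sqrt (((T : ℝ) - 2 * i - 1) / (T + 1))

lemma rr_sq {T i : ℕ} (h : 2 * i + 1 ≤ T) : rr T i ^ 2 = ((T : ℝ) - 2 * i - 1) / (T + 1) := by
  unfold rr
  rw [sq_sqrt]
  have : (2 : ℝ) * i + 1 ≤ T := by exact_mod_cast h
  apply div_nonneg <;> linarith

lemma rr_pos {T i : ℕ} (h : 2 * i + 2 ≤ T) : 0 < rr T i := by
  unfold rr
  apply sqrt_pos.mpr
  have : (2 : ℝ) * i + 2 ≤ T := by exact_mod_cast h
  apply div_pos <;> linarith

lemma rr_lt_one (T i : ℕ) : rr T i < 1 := by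
  unfold rr
  rw [sqrt_lt' one_pos, one_pow, div_lt_one (by positivity)]
  have : (0 : ℝ) ≤ i := by positivity
  linarith

lemma rr_anti {T i : ℕ} : rr T (i + 1) ≤ rr T i := by
  unfold rr
  apply sqrt_le_sqrt
  apply div_le_div_of_nonneg_right _ (by positivity)
  push_cast
  linarith

lemma cost_term_le {T i : ℕ} (h : 2 * i + 2 ≤ T) : -log ((kk T (i + 1) - 1) / 2) ≤ hh (rr T i) := by
  have hk := kk_sq_lower (T := T) (j := i + 1) (by omega)
  have hk1 : 1 ≤ kk T (i + 1) := one_le_kk (by omega)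
  have hr := rr_pos h
  have hr1 := rr_lt_one T i
  have hr2 := rr_sq (T := T) (i := i) (by omega)
  have hTi : (2 : ℝ) * i + 2 ≤ T := by exact_mod_cast h
  have h1 : 1 ≤ kk T (i + 1) * rr T i := by
    have e1 : (T : ℝ) - 2 * ((i + 1 : ℕ) : ℝ) + 1 = (T : ℝ) - 2 * i - 1 := by push_cast; ring
    rw [e1] at hk
    have h2 : 1 ≤ (kk T (i + 1) * rr T i) ^ 2 := by
      rw [mul_pow, hr2, ← mul_div_assoc, le_div_iff₀ (by positivity)]
      linarith
    have h3 : 0 ≤ kk T (i + 1) * rr T i := by positivity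
    nlinarith
  have h4 : (1 - rr T i) / rr T i ≤ kk T (i + 1) - 1 := by
    rw [div_le_iff₀ hr]
    nlinarith
  have h5 : 0 < (1 - rr T i) / rr T i := div_pos (by linarith) hr
  have h6 : log ((1 - rr T i) / rr T i / 2) ≤ log ((kk T (i + 1) - 1) / 2) :=
    log_le_log (by positivity) (by linarith)
  rw [log_div h5.ne' (by norm_num), log_div (by linarith) hr.ne'] at h6
  unfold hh
  linarith

lemma sum_hh_le {T J : ℕ} (hJ1 : 1 ≤ J) (hJ : 9 * J ≤ 4 * T) (hT : 18 ≤ T) :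
    ∑ i ∈ range J, hh (rr T i) ≤ log 2 + log (T + 1) + ((T : ℝ) + 1) * (1 / 3 + log 3 / 2) := by
  obtain ⟨K, rfl⟩ : ∃ K, J = K + 1 := ⟨J - 1, by omega⟩
  have hTpos : (0 : ℝ) < (T : ℝ) + 1 := by positivity
  rw [sum_range_succ']
  have h0 : hh (rr T 0) ≤ log 2 + log (T + 1) := by
    have hr := rr_pos (T := T) (i := 0) (by omega)
    have hr1 := rr_lt_one T 0
    have hr2 := rr_sq (T := T) (i := 0) (by omega)
    have e1 : 1 / ((T : ℝ) + 1) ≤ 1 - rr T 0 := by
      rw [div_le_iff₀ hTpos]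
      have h2 : (1 - rr T 0 ^ 2) * ((T : ℝ) + 1) = 2 := by
        rw [hr2]; field_simp; push_cast; ring
      nlinarith
    have h3 : log (1 / ((T : ℝ) + 1)) ≤ log (1 - rr T 0) := log_le_log (by positivity) e1
    rw [one_div, log_inv] at h3
    have h4 : log (rr T 0) ≤ 0 := log_nonpos hr.le hr1.le
    unfold hh
    linarith
  have h1 : ∀ i ∈ range K, hh (rr T (i + 1)) ≤
      ((T : ℝ) + 1) * (Gam (rr T i) - Gam (rr T (i + 1))) := by
    intro i hi
    rw [mem_range] at hi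
    have hs := step_le (rr_pos (T := T) (i := i + 1) (by omega)) (rr_anti (T := T) (i := i))
      (rr_lt_one T i)
    rw [rr_sq (T := T) (i := i) (by omega), rr_sq (T := T) (i := i + 1) (by omega)] at hs
    have e1 : ((((T : ℝ) - 2 * i - 1) / (T + 1) - ((T : ℝ) - 2 * ((i + 1 : ℕ) : ℝ) - 1) / (T + 1))
        / 2) = 1 / ((T : ℝ) + 1) := by
      push_cast
      field_simp
      ring
    rw [e1, mul_one_div, div_le_iff₀ hTpos] at hs
    linarith
  have h2 : ∑ i ∈ range K, hh (rr T (i + 1)) ≤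
      ((T : ℝ) + 1) * (Gam (rr T 0) - Gam (rr T K)) := by
    refine (sum_le_sum h1).trans (le_of_eq ?_)
    rw [← mul_sum, sum_range_sub']
  have h3 : Gam (rr T 0) ≤ log 2 / 2 + 1 / 2 :=
    Gam_upper (rr_pos (by omega)) (rr_lt_one _ _)
  have h4 : Gam (1 / 3) ≤ Gam (rr T K) := by
    apply Gam_third_le _ (rr_lt_one _ _)
    have h5 := rr_sq (T := T) (i := K) (by omega)
    have h6 : (9 : ℝ) * (K + 1) ≤ 4 * T := by exact_mod_cast hJ
    have h7 : (1 / 3 : ℝ) ^ 2 ≤ rr T K ^ 2 := by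
      rw [h5, le_div_iff₀ hTpos]
      linarith
    have h8 := rr_pos (T := T) (i := K) (by omega)
    exact (pow_le_pow_iff_left₀ (by norm_num) h8.le (by norm_num)).mp h7
  have h5 := Gam_diff
  have h6 : ((T : ℝ) + 1) * (Gam (rr T 0) - Gam (rr T K)) ≤
      ((T : ℝ) + 1) * (1 / 3 + log 3 / 2) := by
    apply mul_le_mul_of_nonneg_left _ hTpos.le
    linarith
  linarith

lemma last_term_le {T J : ℕ} (hJ : 9 * J ≤ 4 * T) (hJ' : 4 * T < 9 * (J + 1)) (hT : 100 ≤ T) :
    ((T : ℝ) - 2 * J) * (-log ((kk T J - 1) / 2)) ≤ 12 := by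
  obtain ⟨K, rfl⟩ : ∃ K, J = K + 1 := ⟨J - 1, by omega⟩
  have hTpos : (0 : ℝ) < (T : ℝ) + 1 := by positivity
  have hT' : (100 : ℝ) ≤ T := by exact_mod_cast hT
  have h1 := cost_term_le (T := T) (i := K) (by omega)
  have hr := rr_pos (T := T) (i := K) (by omega)
  have hr1 := rr_lt_one T K
  have hr2 := rr_sq (T := T) (i := K) (by omega)
  have hJ1 : (9 : ℝ) * (K + 1) ≤ 4 * T := by exact_mod_cast hJ
  have hJ2 : (4 : ℝ) * T + 1 ≤ 9 * (K + 1 + 1) := by exact_mod_cast hJ'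
  -- r is close to 1/3
  have hr3 : rr T K ≤ 1 / 3 + 4 / (T + 1) := by
    have h2 : rr T K ^ 2 ≤ (1 / 3 + 4 / ((T : ℝ) + 1)) ^ 2 := by
      rw [hr2, div_le_iff₀ hTpos]
      have e : (1 / 3 + 4 / ((T : ℝ) + 1)) ^ 2 * (T + 1) =
          (T + 1) / 9 + 8 / 3 + 16 / (T + 1) := by
        field_simp
        ring
      rw [e]
      have : 0 < 16 / ((T : ℝ) + 1) := by positivity
      linarith
    exact (pow_le_pow_iff_left₀ hr.le (by positivity) (by norm_num)).mp h2
  set θ : ℝ := 4 / ((T : ℝ) + 1) with hθ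
  have hθ0 : 0 < θ := by positivity
  have hθ1 : θ ≤ 1 / 25 := by
    rw [hθ, div_le_iff₀ hTpos]; linarith
  have h2 : hh (rr T K) ≤ 6 * θ := by
    have h3 := hh_mono hr hr3 (by linarith)
    refine h3.trans ?_
    have e : hh (1 / 3 + θ) = log (1 + 3 * θ) - log (1 - 3 / 2 * θ) := by
      unfold hh
      have e1 : log (1 / 3 + θ) = log (1 + 3 * θ) - log 3 := by
        rw [← log_div (by linarith) (by norm_num)]; congr 1; ring
      have e2 : log (1 - (1 / 3 + θ)) = log (1 - 3 / 2 * θ) + log 2 - log 3 := by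
        rw [← log_mul (by linarith) (by norm_num), ← log_div (by linarith) (by norm_num)]
        congr 1; ring
      rw [e1, e2]; ring
    rw [e]
    have a1 : log (1 + 3 * θ) ≤ 3 * θ := by
      have := log_le_sub_one_of_pos (show 0 < 1 + 3 * θ by linarith)
      linarith
    have a2 : 1 - (1 - 3 / 2 * θ)⁻¹ ≤ log (1 - 3 / 2 * θ) :=
      one_sub_inv_le_log_of_pos (by linarith)
    have a3 : (1 - 3 / 2 * θ)⁻¹ ≤ 1 + 3 * θ := by
      rw [inv_le_iff_one_le_mul₀ (by linarith)]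
      nlinarith
    linarith
  have h3 : 0 ≤ (T : ℝ) - 2 * ((K + 1 : ℕ) : ℝ) := by
    push_cast
    linarith
  calc ((T : ℝ) - 2 * ((K + 1 : ℕ) : ℝ)) * (-log ((kk T (K + 1) - 1) / 2))
      ≤ ((T : ℝ) - 2 * ((K + 1 : ℕ) : ℝ)) * (6 * θ) :=
        mul_le_mul_of_nonneg_left (h1.trans h2) h3
    _ ≤ (T / 2) * (6 * θ) := by
        apply mul_le_mul_of_nonneg_right _ (by linarith)
        push_cast
        linarith
    _ ≤ 12 := by
        rw [hθ]
        have : (T : ℝ) / 2 * (6 * (4 / (T + 1))) = 12 * (T / (T + 1)) := by ring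
        rw [this]
        have : (T : ℝ) / (T + 1) ≤ 1 := by rw [div_le_one hTpos]; linarith
        linarith

theorem cost_sum : ∃ T0 : ℕ, ∀ T ≥ T0,
    ((4 * T / 9 : ℕ) : ℝ) * log 2
      + ∑ i ∈ range (4 * T / 9), -log ((kk T (i + 1) - 1) / 2)
      + ((T : ℝ) - 2 * ((4 * T / 9 : ℕ) : ℝ)) * (-log ((kk T (4 * T / 9) - 1) / 2))
      ≤ 1191 / 1000 * (T : ℝ) := by
  have hlog : ∀ᶠ x : ℝ in Filter.atTop, log x ≤ 1 / 10000 * x := by
    have := (Real.isLittleO_log_id_atTop.bound (show (0 : ℝ) < 1 / 10000 by norm_num))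
    filter_upwards [this, Filter.eventually_ge_atTop 1] with x hx h1
    simp only [id, norm_eq_abs] at hx
    rw [abs_of_nonneg (show (0 : ℝ) ≤ x by linarith)] at hx
    exact (le_abs_self _).trans hx
  have hlog' : ∀ᶠ T : ℕ in Filter.atTop, log ((T : ℝ) + 1) ≤ 1 / 10000 * ((T : ℝ) + 1) :=
    (Filter.tendsto_atTop_add_const_right _ 1 tendsto_natCast_atTop_atTop).eventually hlog
  obtain ⟨T0, hT0⟩ := Filter.eventually_atTop.mp hlog'
  refine ⟨max T0 200000, fun T hT => ?_⟩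
  have hTa : T0 ≤ T := le_trans (le_max_left _ _) hT
  have hTb : 200000 ≤ T := le_trans (le_max_right _ _) hT
  have hTc : (200000 : ℝ) ≤ T := by exact_mod_cast hTb
  set J := 4 * T / 9 with hJ
  have hJ1 : 9 * J ≤ 4 * T := by omega
  have hJ2 : 4 * T < 9 * (J + 1) := by omega
  have a1 : (J : ℝ) * log 2 ≤ 4 / 9 * T * 0.6931471808 := by
    have h1 : (9 : ℝ) * J ≤ 4 * T := by exact_mod_cast hJ1
    have h2 := Real.log_two_lt_d9
    have h3 : 0 < log 2 := log_pos (by norm_num)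
    calc (J : ℝ) * log 2 ≤ (4 / 9 * T) * log 2 := by
          apply mul_le_mul_of_nonneg_right _ h3.le; linarith
      _ ≤ 4 / 9 * T * 0.6931471808 := by
          apply mul_le_mul_of_nonneg_left h2.le; positivity
  have a2 : ∑ i ∈ range J, -log ((kk T (i + 1) - 1) / 2) ≤
      log 2 + log (T + 1) + ((T : ℝ) + 1) * (1 / 3 + log 3 / 2) := by
    refine (sum_le_sum ?_).trans (sum_hh_le (T := T) (J := J) (by omega) hJ1 (by omega))
    intro i hi
    rw [mem_range] at hi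
    exact cost_term_le (by omega)
  have a3 := last_term_le (T := T) (J := J) hJ1 hJ2 (by omega)
  have a4 := hT0 T hTa
  have a5 := log_three_lt
  have a6 := Real.log_two_lt_d9
  have a7 : ((T : ℝ) + 1) * (1 / 3 + log 3 / 2) ≤ ((T : ℝ) + 1) * (1 / 3 + 1.09863 / 2) := by
    apply mul_le_mul_of_nonneg_left _ (by positivity)
    linarith
  norm_num at a1 a4 a5 a6 a7
  linarith

end Pool.Agent.RandomMakerLower
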