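import Mathlib

/-!
# The pattern lemma
-/

namespace Pool.Agent.RandomMakerLower

open Finset

section
variable {V : Type*} [Fintype V] [DecidableEq V] {q : ℕ}

open Classical in
/-- pairs inside `I` -/
noncomputable def prs (I : Finset (Fin q)) : Finset (Sym2 (Fin q)) :=
  univ.filter (fun p => ¬ p.IsDiag ∧ ∀ x ∈ p, x ∈ I)

lemma mem_prs {I : Finset (Fin q)} {p : Sym2 (Fin q)} :
    p ∈ prs I ↔ ¬ p.IsDiag ∧ ∀ x ∈ p, x ∈ I := by
  simp [prs]

/-- the kernel used for the pair `p` -/
noncomputable def Kf (M W : Sym2 V → ℝ) (Q : Finset (Sym2 (Fin q))) (v : Fin q → V)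
    (p : Sym2 (Fin q)) : ℝ := if p ∈ Q then M (p.map v) else W (p.map v)

/-- the weighted number of copies of a pattern -/
noncomputable def TT (M W : Sym2 V → ℝ) (I : Finset (Fin q)) (Q : Finset (Sym2 (Fin q))) : ℝ :=
  ∑ v : Fin q → V, ∏ p ∈ prs I, Kf M W Q v p

omit [DecidableEq V] in
lemma sum_update (F : (Fin q → V) → ℝ) (a : Fin q) :
    (Fintype.card V : ℝ) * ∑ v, F v = ∑ v, ∑ u, F (Function.update v a u) := by
  have hinv : Function.Involutive
      (fun x : (Fin q → V) × V => (Function.update x.1 a x.2, x.1 a)) := by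
    intro x
    ext
    · simp
    · simp
  have h1 : ∑ x : (Fin q → V) × V, F (Function.update x.1 a x.2) =
      ∑ x : (Fin q → V) × V, F x.1 := by
    exact Fintype.sum_equiv (hinv.toPerm _) _ _ (fun x => rfl)
  rw [Fintype.sum_prod_type, Fintype.sum_prod_type] at h1
  rw [h1]
  simp only [sum_const, card_univ, nsmul_eq_mul, mul_sum]

omit [Fintype V] [DecidableEq V] in
lemma map_update_of_notMem (v : Fin q → V) {a : Fin q} (u : V) {p : Sym2 (Fin q)} (h : a ∉ p) :
    Sym2.map (Function.update v a u) p = Sym2.map v p := by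
  apply Sym2.map_congr
  intro x hx
  have : x ≠ a := by rintro rfl; exact h hx
  exact Function.update_of_ne this _ _

omit [Fintype V] [DecidableEq V] in
lemma Kf_update {M W : Sym2 V → ℝ} {Q : Finset (Sym2 (Fin q))} (v : Fin q → V) {a : Fin q}
    (u : V) {p : Sym2 (Fin q)} (h : a ∉ p) :
    Kf M W Q (Function.update v a u) p = Kf M W Q v p := by
  unfold Kf
  rw [map_update_of_notMem v u h]

open Classical in
lemma prs_erase (I : Finset (Fin q)) (b : Fin q) :
    prs (I.erase b) = (prs I).filter (fun p => b ∉ p) := by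
  ext p
  simp only [mem_prs, mem_filter, mem_erase]
  constructor
  · rintro ⟨h1, h2⟩
    refine ⟨⟨h1, fun x hx => (h2 x hx).2⟩, fun hb => (h2 b hb).1 rfl⟩
  · rintro ⟨⟨h1, h2⟩, h3⟩
    refine ⟨h1, fun x hx => ⟨?_, h2 x hx⟩⟩
    rintro rfl
    exact h3 hx

omit [Fintype V] [DecidableEq V] in
lemma Kf_mem {M W : Sym2 V → ℝ} (hM : ∀ e, M e = 0 ∨ M e = 1) (hW : ∀ e, 0 ≤ W e ∧ W e ≤ 1)
    (Q : Finset (Sym2 (Fin q))) (v : Fin q → V) (p : Sym2 (Fin q)) :
    0 ≤ Kf M W Q v p ∧ Kf M W Q v p ≤ 1 := by
  unfold Kf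
  split_ifs
  · rcases hM (p.map v) with h | h <;> rw [h] <;> norm_num
  · exact hW _

omit [DecidableEq V] in
open Classical in
/-- Replacing one `W`-edge of the pattern by an `M`-edge. -/
lemma replace {M W : Sym2 V → ℝ} (hM : ∀ e, M e = 0 ∨ M e = 1) (hW : ∀ e, 0 ≤ W e ∧ W e ≤ 1)
    {ξ n0 : ℝ}
    (H : ∀ f g : V → ℝ, (∀ v, 0 ≤ f v ∧ f v ≤ 1) → (∀ v, 0 ≤ g v ∧ g v ≤ 1) →
      (1 - ξ) * (∑ u, ∑ v, W s(u, v) * f u * g v) - n0 * (∑ u, f u + ∑ v, g v)
        ≤ ∑ u, ∑ v, M s(u, v) * f u * g v)
    {I : Finset (Fin q)} {Q : Finset (Sym2 (Fin q))} {a b : Fin q} (hab : a ≠ b) (ha : a ∈ I)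
    (hb : b ∈ I) (hQ : s(a, b) ∉ Q) :
    (1 - ξ) * ((Fintype.card V : ℝ) ^ 2 * TT M W I Q) -
      n0 * (Fintype.card V * TT M W (I.erase b) Q + Fintype.card V * TT M W (I.erase a) Q)
      ≤ (Fintype.card V : ℝ) ^ 2 * TT M W I (insert s(a, b) Q) := by
  set A := (prs I).filter (fun p => a ∈ p ∧ b ∉ p) with hA
  set B := (prs I).filter (fun p => a ∉ p ∧ b ∈ p) with hB
  set R := (prs I).filter (fun p => a ∉ p ∧ b ∉ p) with hR
  have hsplit : ∀ φ : Sym2 (Fin q) → ℝ, ∏ p ∈ prs I, φ p =
      φ s(a, b) * (∏ p ∈ A, φ p) * (∏ p ∈ B, φ p) * ∏ p ∈ R, φ p := by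
    intro φ
    rw [← prod_filter_mul_prod_filter_not (prs I) (fun p => a ∈ p),
      ← prod_filter_mul_prod_filter_not ((prs I).filter (fun p => a ∈ p)) (fun p => b ∈ p),
      ← prod_filter_mul_prod_filter_not ((prs I).filter (fun p => ¬ a ∈ p)) (fun p => b ∈ p)]
    simp only [filter_filter]
    have : (prs I).filter (fun p => a ∈ p ∧ b ∈ p) = {s(a, b)} := by
      ext p
      simp only [mem_filter, mem_singleton, mem_prs]
      constructor
      · rintro ⟨_, h1, h2⟩
        exact (Sym2.mem_and_mem_iff hab).mp ⟨h1, h2⟩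
      · rintro rfl
        refine ⟨⟨?_, ?_⟩, ?_, ?_⟩
        · simpa using hab
        · intro x hx
          rcases Sym2.mem_iff.mp hx with rfl | rfl <;> assumption
        · simp
        · simp
    rw [this, prod_singleton]
    ring
  -- the star functions
  let f : (Fin q → V) → V → ℝ := fun v u => ∏ p ∈ A, Kf M W Q (Function.update v a u) p
  let g : (Fin q → V) → V → ℝ := fun v w => ∏ p ∈ B, Kf M W Q (Function.update v b w) p
  let Cc : (Fin q → V) → ℝ := fun v => ∏ p ∈ R, Kf M W Q v p
  have hK := Kf_mem (q := q) hM hW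
  have hf : ∀ v u, 0 ≤ f v u ∧ f v u ≤ 1 := fun v u =>
    ⟨prod_nonneg fun p _ => (hK _ _ _).1, prod_le_one (fun p _ => (hK _ _ _).1)
      fun p _ => (hK _ _ _).2⟩
  have hg : ∀ v u, 0 ≤ g v u ∧ g v u ≤ 1 := fun v u =>
    ⟨prod_nonneg fun p _ => (hK _ _ _).1, prod_le_one (fun p _ => (hK _ _ _).1)
      fun p _ => (hK _ _ _).2⟩
  have hC : ∀ v, 0 ≤ Cc v := fun v => prod_nonneg fun p _ => (hK _ _ _).1
  -- evaluation at an updated point
  have hev : ∀ (Q' : Finset (Sym2 (Fin q))), (∀ p, p ≠ s(a, b) → (p ∈ Q' ↔ p ∈ Q)) →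
      ∀ (v : Fin q → V) (u w : V),
      ∏ p ∈ prs I, Kf M W Q' (Function.update (Function.update v a u) b w) p =
        (if s(a, b) ∈ Q' then M s(u, w) else W s(u, w)) * f v u * g v w * Cc v := by
    intro Q' hQ' v u w
    rw [hsplit]
    have hK' : ∀ p, p ≠ s(a, b) → ∀ v', Kf M W Q' v' p = Kf M W Q v' p := by
      intro p hp v'
      unfold Kf
      by_cases h : p ∈ Q
      · rw [if_pos h, if_pos ((hQ' p hp).mpr h)]
      · rw [if_neg h, if_neg (fun h' => h ((hQ' p hp).mp h'))]
    congr 1
    congr 1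
    congr 1
    · unfold Kf
      have h1 : Sym2.map (Function.update (Function.update v a u) b w) s(a, b) = s(u, w) := by
        rw [Sym2.map_mk]
        simp [hab]
      rw [h1]
    · apply prod_congr rfl
      intro p hp
      rw [hA, mem_filter] at hp
      rw [hK' p (by rintro rfl; exact hp.2.2 (by simp)), Kf_update _ _ hp.2.2]
    · apply prod_congr rfl
      intro p hp
      rw [hB, mem_filter] at hp
      rw [hK' p (by rintro rfl; exact hp.2.1 (by simp)), Function.update_comm hab,
        Kf_update _ _ hp.2.1]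
    · apply prod_congr rfl
      intro p hp
      rw [hR, mem_filter] at hp
      rw [hK' p (by rintro rfl; exact hp.2.1 (by simp)), Kf_update _ _ hp.2.2,
        Kf_update _ _ hp.2.1]
  -- the four sums
  have e1 : (Fintype.card V : ℝ) ^ 2 * TT M W I Q =
      ∑ v, (∑ u, ∑ w, W s(u, w) * f v u * g v w) * Cc v := by
    unfold TT
    rw [pow_two, mul_assoc, sum_update _ b, sum_update _ a]
    apply sum_congr rfl
    intro v _
    rw [sum_mul]
    apply sum_congr rfl
    intro u _
    rw [sum_mul]
    apply sum_congr rfl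
    intro w _
    rw [hev Q (fun p _ => Iff.rfl), if_neg hQ]
  have e2 : (Fintype.card V : ℝ) ^ 2 * TT M W I (insert s(a, b) Q) =
      ∑ v, (∑ u, ∑ w, M s(u, w) * f v u * g v w) * Cc v := by
    unfold TT
    rw [pow_two, mul_assoc, sum_update _ b, sum_update _ a]
    apply sum_congr rfl
    intro v _
    rw [sum_mul]
    apply sum_congr rfl
    intro u _
    rw [sum_mul]
    apply sum_congr rfl
    intro w _
    rw [hev (insert s(a, b) Q) (fun p hp => by simp [hp]), if_pos (mem_insert_self _ _)]
  have e3 : (Fintype.card V : ℝ) * TT M W (I.erase b) Q = ∑ v, (∑ u, f v u) * Cc v := by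
    unfold TT
    rw [sum_update _ a]
    apply sum_congr rfl
    intro v _
    rw [sum_mul]
    apply sum_congr rfl
    intro u _
    rw [prs_erase, ← prod_filter_mul_prod_filter_not _ (fun p => a ∈ p)]
    simp only [filter_filter]
    congr 1
    · apply prod_congr _ (fun _ _ => rfl)
      ext p; simp only [hA, mem_filter]; tauto
    · apply prod_congr
      · ext p; simp only [hR, mem_filter]; tauto
      · intro p hp
        rw [hR, mem_filter] at hp
        rw [Kf_update _ _ hp.2.1]
  have e4 : (Fintype.card V : ℝ) * TT M W (I.erase a) Q = ∑ v, (∑ w, g v w) * Cc v := by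
    unfold TT
    rw [sum_update _ b]
    apply sum_congr rfl
    intro v _
    rw [sum_mul]
    apply sum_congr rfl
    intro u _
    rw [prs_erase, ← prod_filter_mul_prod_filter_not _ (fun p => b ∈ p)]
    simp only [filter_filter]
    congr 1
    apply prod_congr rfl
    intro p hp
    simp only [mem_filter] at hp
    rw [Kf_update _ _ hp.2.2]
  rw [e1, e2, e3, e4, mul_sum, ← sum_add_distrib, mul_sum, ← sum_sub_distrib]
  apply sum_le_sum
  intro v _
  have := mul_le_mul_of_nonneg_right (H (f v) (g v) (hf v) (hg v)) (hC v)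
  linarith

/-- Jensen's inequality for the extension by one vertex. -/
lemma extend_one {W : Sym2 V → ℝ} (hW0 : ∀ u v, u ≠ v → 0 < W s(u, v)) (hW1 : ∀ e, W e ≤ 1)
    (hWn : ∀ e, 0 ≤ W e) {C : ℝ}
    (hcost : ∀ u, ∑ v ∈ univ.erase u, -Real.log (W s(u, v)) ≤ C * Fintype.card V)
    (I : Finset (Fin q)) (hI : I.card < Fintype.card V) (v : Fin q → V)
    (hinj : Set.InjOn v I) :
    ((Fintype.card V : ℝ) - I.card) *
      Real.exp (-(I.card * C * Fintype.card V / ((Fintype.card V : ℝ) - I.card)))
      ≤ ∑ x, ∏ a ∈ I, W s(v a, x) := by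
  set S : Finset V := univ \ I.image v with hS
  have hcardS : S.card = Fintype.card V - I.card := by
    rw [hS, card_sdiff_of_subset (subset_univ _), card_univ, card_image_of_injOn hinj]
  have hcardS' : (S.card : ℝ) = (Fintype.card V : ℝ) - I.card := by
    rw [hcardS, Nat.cast_sub hI.le]
  have hSpos : (0 : ℝ) < S.card := by
    rw [hcardS']
    have : (I.card : ℝ) < Fintype.card V := by exact_mod_cast hI
    linarith
  rw [← hcardS']
  have hne : ∀ x ∈ S, ∀ a ∈ I, v a ≠ x := by
    intro x hx a ha h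
    rw [hS, mem_sdiff] at hx
    exact hx.2 (mem_image.mpr ⟨a, ha, h⟩)
  set y : V → ℝ := fun x => ∑ a ∈ I, Real.log (W s(v a, x)) with hy
  have h1 : ∀ x ∈ S, ∏ a ∈ I, W s(v a, x) = Real.exp (y x) := by
    intro x hx
    rw [hy, Real.exp_sum]
    apply prod_congr rfl
    intro a ha
    rw [Real.exp_log (hW0 _ _ (hne x hx a ha))]
  have h2 : ∑ x ∈ S, ∏ a ∈ I, W s(v a, x) ≤ ∑ x, ∏ a ∈ I, W s(v a, x) :=
    sum_le_univ_sum_of_nonneg fun x => prod_nonneg fun a _ => hWn _
  refine le_trans ?_ h2
  rw [sum_congr rfl h1]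
  -- total cost
  have h3 : -(I.card * C * Fintype.card V) ≤ ∑ x ∈ S, y x := by
    have h4 : ∑ x ∈ S, y x = ∑ a ∈ I, ∑ x ∈ S, Real.log (W s(v a, x)) := by
      rw [hy, sum_comm]
    rw [h4]
    have h5 : ∀ a ∈ I, -(C * Fintype.card V) ≤ ∑ x ∈ S, Real.log (W s(v a, x)) := by
      intro a ha
      have h6 := hcost (v a)
      have h7 : ∑ x ∈ S, -Real.log (W s(v a, x)) ≤
          ∑ x ∈ univ.erase (v a), -Real.log (W s(v a, x)) := by
        apply sum_le_sum_of_subset_of_nonneg
        · intro x hx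
          rw [mem_erase]
          exact ⟨(hne x hx a ha).symm, mem_univ _⟩
        · intro x _ _
          have := Real.log_nonpos (hWn s(v a, x)) (hW1 _)
          linarith
      rw [sum_neg_distrib] at h7
      linarith
    calc -(I.card * C * Fintype.card V) = ∑ a ∈ I, -(C * Fintype.card V) := by
          rw [sum_const, nsmul_eq_mul]; ring
      _ ≤ _ := sum_le_sum h5
  set m : ℝ := -(I.card * C * Fintype.card V / (S.card : ℝ)) with hm
  have h8 : ∀ x, Real.exp m * (1 + (y x - m)) ≤ Real.exp (y x) := by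
    intro x
    have h9 := Real.add_one_le_exp (y x - m)
    have h10 : Real.exp (y x) = Real.exp m * Real.exp (y x - m) := by
      rw [← Real.exp_add]; congr 1; ring
    rw [h10]
    apply mul_le_mul_of_nonneg_left _ (Real.exp_pos _).le
    linarith
  calc (S.card : ℝ) * Real.exp m ≤ ∑ x ∈ S, Real.exp m * (1 + (y x - m)) := by
        rw [← mul_sum, sum_add_distrib, sum_sub_distrib, sum_const, sum_const, nsmul_eq_mul,
          nsmul_eq_mul, mul_one]
        have : (S.card : ℝ) * m = -(I.card * C * Fintype.card V) := by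
          rw [hm]; field_simp
        rw [this, mul_comm]
        apply mul_le_mul_of_nonneg_left _ (Real.exp_pos _).le
        linarith
    _ ≤ ∑ x ∈ S, Real.exp (y x) := sum_le_sum fun x _ => h8 x

lemma prs_subset_insert (I : Finset (Fin q)) (z : Fin q) : prs I ⊆ prs (insert z I) := by
  intro p hp
  rw [mem_prs] at hp ⊢
  exact ⟨hp.1, fun x hx => mem_insert_of_mem (hp.2 x hx)⟩

open Classical in
lemma prod_prs_insert (I : Finset (Fin q)) {z : Fin q} (hz : z ∉ I) (φ : Sym2 (Fin q) → ℝ) :
    ∏ p ∈ prs (insert z I), φ p = (∏ p ∈ prs I, φ p) * ∏ a ∈ I, φ s(a, z) := by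
  have h1 : prs (insert z I) = prs I ∪ I.image (fun a => s(a, z)) := by
    ext p
    simp only [mem_union, mem_image, mem_prs]
    constructor
    · rintro ⟨h1, h2⟩
      by_cases hzp : z ∈ p
      · right
        obtain ⟨y, rfl⟩ := Sym2.mem_iff_exists.mp hzp
        have hyz : y ≠ z := by
          rintro rfl
          exact h1 (by simp)
        refine ⟨y, ?_, Sym2.eq_swap⟩
        rcases mem_insert.mp (h2 y (by simp)) with h | h
        · exact absurd h hyz
        · exact h
      · left
        refine ⟨h1, fun x hx => ?_⟩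
        rcases mem_insert.mp (h2 x hx) with h | h
        · exact absurd (h ▸ hx) hzp
        · exact h
    · rintro (⟨h1, h2⟩ | ⟨a, ha, rfl⟩)
      · exact ⟨h1, fun x hx => mem_insert_of_mem (h2 x hx)⟩
      · refine ⟨?_, ?_⟩
        · have : a ≠ z := by rintro rfl; exact hz ha
          simpa using this
        · intro x hx
          rcases Sym2.mem_iff.mp hx with rfl | rfl
          · exact mem_insert_of_mem ha
          · exact mem_insert_self _ _
  rw [h1, prod_union, prod_image]
  · intro a ha b hb hab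
    simp only at hab
    rcases Sym2.eq_iff.mp hab with ⟨h, _⟩ | ⟨h, _⟩
    · exact h
    · exact absurd (h ▸ ha) hz
  · rw [disjoint_left]
    intro p hp hp'
    rw [mem_image] at hp'
    obtain ⟨a, _, rfl⟩ := hp'
    exact hz ((mem_prs.mp hp).2 z (by simp))

open Classical in
/-- Adding one vertex joined by `W`-edges. -/
lemma extend {M W : Sym2 V → ℝ} (hM : ∀ e, M e = 0 ∨ M e = 1) (hMd : ∀ v, M s(v, v) = 0)
    (hW0 : ∀ u v, u ≠ v → 0 < W s(u, v)) (hW1 : ∀ e, W e ≤ 1)
    (hWn : ∀ e, 0 ≤ W e) {C : ℝ}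
    (hcost : ∀ u, ∑ v ∈ univ.erase u, -Real.log (W s(u, v)) ≤ C * Fintype.card V)
    (I : Finset (Fin q)) (hI : I.card < Fintype.card V) {z : Fin q} (hz : z ∉ I) :
    ((Fintype.card V : ℝ) - I.card) *
      Real.exp (-(I.card * C * Fintype.card V / ((Fintype.card V : ℝ) - I.card))) *
        TT M W I (prs I) ≤ Fintype.card V * TT M W (insert z I) (prs I) := by
  unfold TT
  rw [sum_update _ z, mul_sum]
  apply sum_le_sum
  intro v _
  have h1 : ∀ x, ∏ p ∈ prs (insert z I), Kf M W (prs I) (Function.update v z x) p =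
      (∏ p ∈ prs I, Kf M W (prs I) v p) * ∏ a ∈ I, W s(v a, x) := by
    intro x
    rw [prod_prs_insert I hz]
    congr 1
    · apply prod_congr rfl
      intro p hp
      apply Kf_update
      intro hzp
      exact hz ((mem_prs.mp hp).2 z hzp)
    · apply prod_congr rfl
      intro a ha
      have hnot : s(a, z) ∉ prs I := by
        intro h
        exact hz ((mem_prs.mp h).2 z (by simp))
      unfold Kf
      rw [if_neg hnot, Sym2.map_mk]
      have : a ≠ z := by rintro rfl; exact hz ha
      simp [this]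
  rw [sum_congr rfl fun x _ => h1 x, ← mul_sum, mul_comm]
  by_cases h0 : ∏ p ∈ prs I, Kf M W (prs I) v p = 0
  · rw [h0]; simp
  · have hinj : Set.InjOn v I := by
      intro a ha b hb hab
      by_contra hne
      apply h0
      apply prod_eq_zero (i := s(a, b))
      · rw [mem_prs]
        refine ⟨by simpa using hne, ?_⟩
        intro x hx
        rcases Sym2.mem_iff.mp hx with rfl | rfl <;> assumption
      · unfold Kf
        rw [if_pos, Sym2.map_mk]
        · rw [hab]
          exact hMd _
        · rw [mem_prs]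
          refine ⟨by simpa using hne, ?_⟩
          intro x hx
          rcases Sym2.mem_iff.mp hx with rfl | rfl <;> assumption
    apply mul_le_mul_of_nonneg_left
    · exact extend_one hW0 hW1 hWn hcost I hI v hinj
    · exact prod_nonneg fun p _ => (Kf_mem hM (fun e => ⟨hWn e, hW1 e⟩) _ _ _).1

open Classical in
lemma card_star_le (I : Finset (Fin q)) (b : Fin q) :
    ((prs I).filter (fun p => b ∈ p)).card ≤ q := by
  calc ((prs I).filter (fun p => b ∈ p)).card ≤
      ((univ : Finset (Fin q)).image (fun c => s(b, c))).card := by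
        apply card_le_card
        intro p hp
        rw [mem_filter] at hp
        obtain ⟨y, rfl⟩ := Sym2.mem_iff_exists.mp hp.2
        exact mem_image_of_mem _ (mem_univ _)
    _ ≤ (univ : Finset (Fin q)).card := card_image_le
    _ = q := by simp

open Classical in
lemma card_label_erase (I : Finset (Fin q)) (Q : Finset (Sym2 (Fin q))) (b : Fin q) :
    (Q ∩ prs I).card ≤ (Q ∩ prs (I.erase b)).card + q := by
  have h1 : Q ∩ prs I ⊆ (Q ∩ prs (I.erase b)) ∪ (prs I).filter (fun p => b ∈ p) := by
    intro p hp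
    rw [mem_inter] at hp
    rw [mem_union, mem_inter, prs_erase, mem_filter, mem_filter]
    by_cases hb : b ∈ p
    · exact Or.inr ⟨hp.2, hb⟩
    · exact Or.inl ⟨hp.1, hp.2, hb⟩
  calc (Q ∩ prs I).card ≤ _ := card_le_card h1
    _ ≤ (Q ∩ prs (I.erase b)).card + ((prs I).filter (fun p => b ∈ p)).card := card_union_le _ _
    _ ≤ _ := by
      have := card_star_le I b
      omega

open Classical in
/-- The pattern lemma. -/
theorem pattern (M W : Sym2 V → ℝ)
    (hM : ∀ e, M e = 0 ∨ M e = 1) (hMd : ∀ v, M s(v, v) = 0)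
    (hW0 : ∀ u v, u ≠ v → 0 < W s(u, v)) (hW1 : ∀ e, W e ≤ 1) (hWd : ∀ v, W s(v, v) = 0)
    (C ξ n0 lam rho : ℝ) (hn0 : 0 ≤ n0) (hlam : 0 < lam) (hrho : 1 ≤ rho)
    (hq : q < Fintype.card V)
    (hcost : ∀ u, ∑ v ∈ univ.erase u, -Real.log (W s(u, v)) ≤ C * Fintype.card V)
    (H : ∀ f g : V → ℝ, (∀ v, 0 ≤ f v ∧ f v ≤ 1) → (∀ v, 0 ≤ g v ∧ g v ≤ 1) →
      (1 - ξ) * (∑ u, ∑ v, W s(u, v) * f u * g v) - n0 * (∑ u, f u + ∑ v, g v)
        ≤ ∑ u, ∑ v, M s(u, v) * f u * g v)
    (h1 : 1 / rho < 1 - ξ - 2 * n0 * rho ^ q / lam)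
    (h2 : ∀ j : ℕ, j < q → lam < ((Fintype.card V : ℝ) - j) *
      Real.exp (-(j * C * Fintype.card V / ((Fintype.card V : ℝ) - j)))) :
    ∃ v : Fin q → V, ∀ a b, a ≠ b → M s(v a, v b) = 1 := by
  have hWn : ∀ e, 0 ≤ W e := by
    intro e
    induction e with
    | _ u v =>
      by_cases huv : u = v
      · subst huv; rw [hWd]
      · exact (hW0 u v huv).le
  set n : ℝ := (Fintype.card V : ℝ) with hn
  have hnpos : 0 < n := by
    rw [hn]
    have : 0 < Fintype.card V := by omega
    exact_mod_cast this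
  have hrho0 : 0 < rho := by linarith
  set μ : ℝ := n / lam with hμ
  have hμ0 : 0 < μ := by positivity
  let Ψ : Finset (Fin q) × Finset (Sym2 (Fin q)) → ℝ := fun x =>
    TT M W x.1 x.2 * μ ^ x.1.card * rho ^ (x.2 ∩ prs x.1).card
  obtain ⟨⟨I, Q⟩, -, hmax⟩ := exists_max_image (univ : Finset (Finset (Fin q) ×
    Finset (Sym2 (Fin q)))) Ψ univ_nonempty
  have hTTn : ∀ I Q, 0 ≤ TT M W I Q := fun I Q => sum_nonneg fun v _ => prod_nonneg fun p _ =>
    (Kf_mem (q := q) hM (fun e => ⟨hWn e, hW1 e⟩) _ _ _).1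
  -- positivity
  have hpos : 0 < Ψ (I, Q) := by
    refine lt_of_lt_of_le ?_ (hmax (∅, ∅) (mem_univ _))
    have hprs : prs (∅ : Finset (Fin q)) = ∅ := by
      ext p
      simp only [mem_prs, notMem_empty, iff_false, not_and]
      intro _ h
      induction p with
      | _ a b => exact h a (by simp)
    simp only [Ψ, TT, hprs, prod_empty, sum_const, card_univ, card_empty, pow_zero, mul_one,
      inter_empty, nsmul_eq_mul, mul_one]
    have : 0 < Fintype.card (Fin q → V) := by
      rw [Fintype.card_fun]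
      have : 0 < Fintype.card V := by omega
      positivity
    exact_mod_cast this
  have hTT0 : 0 < TT M W I Q := by
    rcases (hTTn I Q).lt_or_eq with h | h
    · exact h
    · simp only [Ψ, ← h, zero_mul, lt_self_iff_false] at hpos
  -- all pairs are labelled `M`
  have hall : prs I ⊆ Q := by
    intro p hp
    by_contra hpQ
    obtain ⟨hpd, hpI⟩ := mem_prs.mp hp
    induction p with
    | _ a b =>
    have hab : a ≠ b := by simpa using hpd
    have ha : a ∈ I := hpI a (by simp)
    have hb : b ∈ I := hpI b (by simp)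
    have hrep := replace (q := q) hM (fun e => ⟨hWn e, hW1 e⟩) H hab ha hb hpQ
    rw [← hn] at hrep
    -- deletion
    have hdel : ∀ c ∈ I, TT M W (I.erase c) Q ≤ TT M W I Q * (μ * rho ^ q) := by
      intro c hc
      have h3 := hmax (I.erase c, Q) (mem_univ _)
      simp only [Ψ] at h3
      rw [card_erase_of_mem hc] at h3
      have hcard : I.card = (I.card - 1) + 1 := by
        have := card_pos.mpr ⟨c, hc⟩
        omega
      have h4 : rho ^ (Q ∩ prs I).card ≤ rho ^ (Q ∩ prs (I.erase c)).card * rho ^ q := by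
        rw [← pow_add]
        exact pow_le_pow_right₀ hrho (card_label_erase I Q c)
      have h5 : TT M W I Q * μ ^ I.card * rho ^ (Q ∩ prs I).card ≤
          (TT M W I Q * (μ * rho ^ q)) * (μ ^ (I.card - 1) *
            rho ^ (Q ∩ prs (I.erase c)).card) := by
        calc TT M W I Q * μ ^ I.card * rho ^ (Q ∩ prs I).card
            ≤ TT M W I Q * μ ^ I.card * (rho ^ (Q ∩ prs (I.erase c)).card * rho ^ q) := by
              apply mul_le_mul_of_nonneg_left h4
              positivity
          _ = _ := by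
              conv_lhs => rw [hcard, pow_succ]
              ring
      have h6 : 0 < μ ^ (I.card - 1) * rho ^ (Q ∩ prs (I.erase c)).card := by positivity
      have h7 : TT M W (I.erase c) Q * (μ ^ (I.card - 1) * rho ^ (Q ∩ prs (I.erase c)).card) ≤
          (TT M W I Q * (μ * rho ^ q)) * (μ ^ (I.card - 1) *
            rho ^ (Q ∩ prs (I.erase c)).card) := by
        rw [← mul_assoc]
        exact h3.trans h5
      exact le_of_mul_le_mul_right h7 h6
    have hda := hdel a ha
    have hdb := hdel b hb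
    have hins := hmax (I, insert s(a, b) Q) (mem_univ _)
    simp only [Ψ] at hins
    have hcard2 : (insert s(a, b) Q ∩ prs I).card = (Q ∩ prs I).card + 1 := by
      rw [insert_inter_of_mem hp, card_insert_of_notMem]
      rw [mem_inter]; tauto
    rw [hcard2, pow_succ] at hins
    have hins' : TT M W I (insert s(a, b) Q) * rho ≤ TT M W I Q := by
      have h6 : 0 < μ ^ I.card * rho ^ (Q ∩ prs I).card := by positivity
      have h7 : (TT M W I (insert s(a, b) Q) * rho) * (μ ^ I.card * rho ^ (Q ∩ prs I).card) ≤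
          TT M W I Q * (μ ^ I.card * rho ^ (Q ∩ prs I).card) := by
        calc _ = TT M W I (insert s(a, b) Q) * μ ^ I.card *
              (rho ^ (Q ∩ prs I).card * rho) := by ring
          _ ≤ _ := hins
          _ = _ := by ring
      exact le_of_mul_le_mul_right h7 h6
    set t := TT M W I Q with ht
    -- combine
    have h8 : n ^ 2 * TT M W I (insert s(a, b) Q) ≤ n ^ 2 * (t / rho) := by
      apply mul_le_mul_of_nonneg_left _ (by positivity)
      rw [le_div_iff₀ hrho0]
      exact hins'
    have h9 : n0 * (n * TT M W (I.erase b) Q + n * TT M W (I.erase a) Q) ≤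
        n0 * (n * (t * (μ * rho ^ q)) + n * (t * (μ * rho ^ q))) := by
      apply mul_le_mul_of_nonneg_left _ hn0
      have e1 := mul_le_mul_of_nonneg_left hda hnpos.le
      have e2 := mul_le_mul_of_nonneg_left hdb hnpos.le
      linarith
    have h10 : (1 - ξ) * (n ^ 2 * t) - n0 * (n * (t * (μ * rho ^ q)) + n * (t * (μ * rho ^ q)))
        ≤ n ^ 2 * (t / rho) := by linarith
    have h11 : (1 - ξ) * (n ^ 2 * t) - n0 * (n * (t * (μ * rho ^ q)) + n * (t * (μ * rho ^ q)))
        = n ^ 2 * t * (1 - ξ - 2 * n0 * rho ^ q / lam) := by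
      rw [hμ]; field_simp; ring
    have h12 : n ^ 2 * (t / rho) = n ^ 2 * t * (1 / rho) := by ring
    rw [h11, h12] at h10
    have h13 : 0 < n ^ 2 * t := by positivity
    have h14 := le_of_mul_le_mul_left h10 h13
    linarith
  -- all coordinates are used
  have hI : I = univ := by
    by_contra hne
    obtain ⟨z, hz⟩ : ∃ z, z ∉ I := by
      by_contra hcon
      push Not at hcon
      exact hne (eq_univ_of_forall hcon)
    have hIq : I.card < q := by
      have h3 : (insert z I).card ≤ (univ : Finset (Fin q)).card := card_le_card (subset_univ _)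
      rw [card_insert_of_notMem hz] at h3
      simp at h3
      omega
    have hext := extend (q := q) hM hMd hW0 hW1 hWn hcost I (by omega) hz
    rw [← hn] at hext
    have h3 := h2 I.card hIq
    have h4 := hmax (insert z I, prs I) (mem_univ _)
    simp only [Ψ] at h4
    have e1 : prs I ∩ prs (insert z I) = prs I := inter_eq_left.mpr (prs_subset_insert I z)
    have e2 : Q ∩ prs I = prs I := inter_eq_right.mpr hall
    have e3 : TT M W I Q = TT M W I (prs I) := by
      unfold TT
      apply sum_congr rfl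
      intro v _
      apply prod_congr rfl
      intro p hp
      unfold Kf
      rw [if_pos hp, if_pos (hall hp)]
    rw [e1, e2, card_insert_of_notMem hz, pow_succ] at h4
    rw [← e3] at hext
    set L := (n - I.card) * Real.exp (-(I.card * C * n / (n - I.card))) with hL
    set t := TT M W I Q with ht
    have h5 : 0 < μ ^ I.card * rho ^ (prs I).card := by positivity
    have h6 : TT M W (insert z I) (prs I) * μ ≤ t := by
      have h7 : (TT M W (insert z I) (prs I) * μ) * (μ ^ I.card * rho ^ (prs I).card) ≤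
          t * (μ ^ I.card * rho ^ (prs I).card) := by
        calc _ = TT M W (insert z I) (prs I) * (μ ^ I.card * μ) * rho ^ (prs I).card := by ring
          _ ≤ _ := h4
          _ = _ := by ring
      exact le_of_mul_le_mul_right h7 h5
    have h7 : n * TT M W (insert z I) (prs I) ≤ lam * t := by
      rw [hμ, mul_div_assoc', div_le_iff₀ hlam] at h6
      linarith
    have h8 : L * t ≤ lam * t := hext.trans h7
    have h9 := le_of_mul_le_mul_right h8 hTT0
    linarith
  -- conclusion
  subst hI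
  obtain ⟨v, -, hv⟩ : ∃ v ∈ (univ : Finset (Fin q → V)), 0 <
      ∏ p ∈ prs univ, Kf M W Q v p := by
    by_contra hcon
    push Not at hcon
    have : TT M W univ Q ≤ 0 := sum_nonpos fun v hv => hcon v hv
    linarith
  refine ⟨v, fun a b hab => ?_⟩
  have hmem : s(a, b) ∈ prs (univ : Finset (Fin q)) := by
    rw [mem_prs]
    exact ⟨by simpa using hab, fun x _ => mem_univ x⟩
  have h3 : Kf M W Q v s(a, b) ≠ 0 := by
    intro h0
    rw [prod_eq_zero hmem h0] at hv
    exact lt_irrefl _ hv
  unfold Kf at h3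
  rw [if_pos (hall hmem), Sym2.map_mk] at h3
  rcases hM s(v a, v b) with h | h
  · exact absurd h h3
  · exact h

end

end Pool.Agent.RandomMakerLower
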