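import Pool.Agent.Work.MP_ecc80d_co.Lower.Status
import Pool.Agent.Work.MP_ecc80d_co.Lower.Pattern
import Pool.Agent.Work.MP_ecc80d_co.Bound

/-!
# The deterministic part: a good history contains a clique
-/

namespace Pool.Agent.RandomMakerLower

open Pool.Agent.RandomMaker
open Finset hiding expect

/-- the board -/
abbrev Bd (N : ℕ) : Finset (Sym2 (Fin N)) := (⊤ : SimpleGraph (Fin N)).edgeFinset

lemma mem_Bd {N : ℕ} {u v : Fin N} : s(u, v) ∈ Bd N ↔ u ≠ v := by
  simp [Bd]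

/-- the exponent functions -/
noncomputable def ηFG {N : ℕ} (η : ℝ) (F G : Finset (Fin N)) (e : Sym2 (Fin N)) : ℝ :=
  η * cnt F G e

lemma ηFG_nonneg {N : ℕ} {η : ℝ} (hη : 0 < η) (F G : Finset (Fin N)) (e : Sym2 (Fin N)) :
    0 ≤ ηFG η F G e := by
  unfold ηFG; positivity

lemma ηFG_le {N : ℕ} {η : ℝ} (hη : 0 < η) (F G : Finset (Fin N)) (e : Sym2 (Fin N)) :
    ηFG η F G e ≤ 2 * η := by
  unfold ηFG
  have : (cnt F G e : ℝ) ≤ 2 := by exact_mod_cast cnt_le_two F G e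
  nlinarith

/-- Cut inequality for one pair of sets. -/
lemma cut_ineq {N : ℕ} {h : List (Sym2 (Fin N) × Sym2 (Fin N))} (hv : Valid (Bd N) h)
    (hl : h.length = 4 * (Bd N).card / 9) (hE : 9 ≤ (Bd N).card) {η : ℝ} (hη0 : 0 < η)
    (hη1 : η ≤ 1 / 8) (F G : Finset (Fin N)) {B : ℝ}
    (hB : Real.log (Zf (Bd N) (ηFG η F G) h) ≤ B) :
    -(B / (2 * η)) ≤ ∑ u ∈ F, ∑ v ∈ G, (Mf h s(u, v) - (1 - 4 * η) * Wf (Bd N) h s(u, v)) := by
  have h1 := log_Zf_ge (E := Bd N) (h := h) (fun e => (Sf_bounds hl hE e).2.1)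
    (fun e => (Sf_bounds hl hE e).1) hη0 hη1 (ηFG_nonneg hη0 F G) (ηFG_le hη0 F G)
  have e1 : ∑ e ∈ Bd N, ηFG η F G e * Sf (Bd N) h e =
      η * ∑ u ∈ F, ∑ v ∈ G, Sf (Bd N) h s(u, v) := by
    rw [← sum_cnt F G (Bd N) (Sf (Bd N) h) (fun e he => Sf_off he), mul_sum]
    apply sum_congr rfl
    intro e _
    unfold ηFG
    ring
  have e2 : ∑ e ∈ Bd N, ηFG η F G e * Mf h e = η * ∑ u ∈ F, ∑ v ∈ G, Mf h s(u, v) := by
    rw [← sum_cnt F G (Bd N) (Mf h) (fun e he => Mf_off hv he), mul_sum]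
    apply sum_congr rfl
    intro e _
    unfold ηFG
    ring
  rw [e1, e2] at h1
  have e3 : ∑ u ∈ F, ∑ v ∈ G, (Mf h s(u, v) - (1 - 4 * η) * Wf (Bd N) h s(u, v)) =
      ((1 + 4 * η) * ∑ u ∈ F, ∑ v ∈ G, Mf h s(u, v) -
        (1 - 4 * η) * ∑ u ∈ F, ∑ v ∈ G, Sf (Bd N) h s(u, v)) / 2 := by
    simp only [Wf, mul_sum, sum_div, ← sum_sub_distrib]
    apply sum_congr rfl
    intro u _
    apply sum_congr rfl
    intro v _
    ring
  rw [e3, neg_le, ← sub_nonneg]
  have h2 := h1.trans hB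
  have e4 : B / (2 * η) - -(((1 + 4 * η) * ∑ u ∈ F, ∑ v ∈ G, Mf h s(u, v) -
        (1 - 4 * η) * ∑ u ∈ F, ∑ v ∈ G, Sf (Bd N) h s(u, v)) / 2) =
      (B - ((1 - 4 * η) * (η * ∑ u ∈ F, ∑ v ∈ G, Sf (Bd N) h s(u, v)) -
        (1 + 4 * η) * (η * ∑ u ∈ F, ∑ v ∈ G, Mf h s(u, v)))) / (2 * η) := by
    field_simp
    ring
  rw [e4]
  apply div_nonneg _ (by positivity)
  linarith

/-- A good history contains a clique in Maker's graph. -/
theorem clique_of_good {N q : ℕ} {h : List (Sym2 (Fin N) × Sym2 (Fin N))}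
    (hv : Valid (Bd N) h) (hl : h.length = 4 * (Bd N).card / 9) (hE : 9 ≤ (Bd N).card)
    {η L0 : ℝ} (hη0 : 0 < η) (hη1 : η ≤ 1 / 8) (hL0 : 0 ≤ L0)
    (hgood : ∀ F G : Finset (Fin N), Real.log (Zf (Bd N) (ηFG η F G) h) ≤
      L0 * ((F.card : ℝ) + G.card))
    (hcost : ∑ e ∈ Bd N, -Real.log (Wf (Bd N) h e) ≤ 1191 / 1000 * (Bd N).card)
    {lam rho : ℝ} (hlam : 0 < lam) (hrho : 1 ≤ rho)
    (h1 : 1 / rho < 1 - 4 * η - 2 * (L0 / (2 * η)) * rho ^ q / lam)
    (h2 : ∀ n : ℝ, (N : ℝ) ^ 2 ≤ 501 * n ^ 2 → 0 ≤ n → (q : ℝ) < n ∧ ∀ j : ℕ, j < q →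
      lam < (n - j) * Real.exp (-(j * ((1 + 1 / 500) * (1191 / 1000)) * n / (n - j)))) :
    ¬ (SimpleGraph.fromEdgeSet (makerSet h : Set (Sym2 (Fin N)))).CliqueFree q := by
  classical
  -- the cost function
  set l : Fin N → Fin N → ℝ := fun u v => -Real.log (Wf (Bd N) h s(u, v)) with hl'
  have hWb := fun e => Wf_bounds (E := Bd N) (h := h) hl hE e
  have hdiag0 : ∀ u : Fin N, Wf (Bd N) h s(u, u) = 0 := fun u =>
    Wf_off hv (by rw [mem_Bd]; simp)
  have hlpos : ∀ u v, 0 ≤ l u v := fun u v => by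
    have := Real.log_nonpos (hWb s(u, v)).1 (hWb s(u, v)).2.1
    simp only [hl']; linarith
  have hldiag : ∀ u, l u u = 0 := fun u => by
    simp only [hl', hdiag0, Real.log_zero, neg_zero]
  have hsum : ∑ u, ∑ v, l u v ≤ 1191 / 1000 * (Fintype.card (Fin N) : ℝ) ^ 2 := by
    have e1 := sum_cnt (univ : Finset (Fin N)) univ (Bd N) (fun e => -Real.log (Wf (Bd N) h e))
      (fun e he => by rw [Wf_off hv he]; simp)
    simp only [hl']
    rw [← e1]
    have e2 : ∑ e ∈ Bd N, (cnt (univ : Finset (Fin N)) univ e : ℝ) * -Real.log (Wf (Bd N) h e) ≤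
        2 * ∑ e ∈ Bd N, -Real.log (Wf (Bd N) h e) := by
      rw [mul_sum]
      apply sum_le_sum
      intro e _
      apply mul_le_mul_of_nonneg_right
      · exact_mod_cast cnt_le_two _ _ e
      · have := Real.log_nonpos (hWb e).1 (hWb e).2.1
        linarith
    refine e2.trans ?_
    have e3 : ((Bd N).card : ℝ) = (N : ℝ) * (N - 1) / 2 := by
      rw [card_topEdges, Nat.cast_choose_two]
    rw [e3] at hcost
    rw [Fintype.card_fin]
    have hN : (0 : ℝ) ≤ N := by positivity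
    nlinarith
  obtain ⟨A, hA1, hA2⟩ := subset_cost l (fun u v => by simp only [hl']; rw [Sym2.eq_swap])
    hlpos hldiag (1191 / 1000) (1 / 500) (by norm_num) (by norm_num) hsum
  rw [Fintype.card_fin] at hA1
  obtain ⟨hqA, h2'⟩ := h2 A.card (by norm_num at hA1 ⊢; linarith) (by positivity)
  -- restrict to `A`
  let ι : A → Fin N := Subtype.val
  let M' : Sym2 A → ℝ := fun e => Mf h (e.map ι)
  let W' : Sym2 A → ℝ := fun e => Wf (Bd N) h (e.map ι)
  have hcardA : Fintype.card A = A.card := Fintype.card_coe A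
  have hM' : ∀ e, M' e = 0 ∨ M' e = 1 := fun e => Mf_eq_zero_or_one _ _
  have hMd : ∀ v, M' s(v, v) = 0 := fun v => by
    simp only [M', Sym2.map_mk]
    exact Mf_off hv (by rw [mem_Bd]; simp)
  have hW0 : ∀ u v, u ≠ v → 0 < W' s(u, v) := fun u v huv => by
    simp only [W', Sym2.map_mk]
    apply (hWb _).2.2
    rw [mem_Bd]
    exact fun hc => huv (Subtype.ext hc)
  have hWd : ∀ v, W' s(v, v) = 0 := fun v => by
    simp only [W', Sym2.map_mk]
    exact hdiag0 _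
  have hcostA : ∀ u : A, ∑ v ∈ univ.erase u, -Real.log (W' s(u, v)) ≤
      (1 + 1 / 500) * (1191 / 1000) * Fintype.card A := by
    intro u
    rw [hcardA]
    refine le_trans ?_ (hA2 u.1 u.2)
    have e1 : ∑ v ∈ A, l u.1 v = ∑ v : A, l u.1 v.1 := by
      rw [← Finset.sum_coe_sort A (fun v => l u.1 v)]
    rw [e1]
    apply sum_le_sum_of_subset_of_nonneg (subset_univ _)
    intro v _ _
    exact hlpos _ _
  have hH : ∀ f g : A → ℝ, (∀ v, 0 ≤ f v ∧ f v ≤ 1) → (∀ v, 0 ≤ g v ∧ g v ≤ 1) →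
      (1 - 4 * η) * (∑ u, ∑ v, W' s(u, v) * f u * g v) -
        (L0 / (2 * η)) * (∑ u, f u + ∑ v, g v) ≤ ∑ u, ∑ v, M' s(u, v) * f u * g v := by
    intro f g hf hg
    have h3 := bilinear_of_sets (V := A)
      (fun u v => M' s(u, v) - (1 - 4 * η) * W' s(u, v)) (L0 / (2 * η)) ?_ f g hf hg
    · have e1 : ∑ u : A, ∑ v : A, (M' s(u, v) - (1 - 4 * η) * W' s(u, v)) * f u * g v =
          ∑ u, ∑ v, M' s(u, v) * f u * g v -
            (1 - 4 * η) * (∑ u, ∑ v, W' s(u, v) * f u * g v) := by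
        simp only [mul_sum, ← sum_sub_distrib]
        apply sum_congr rfl
        intro u _
        apply sum_congr rfl
        intro v _
        ring
      rw [e1] at h3
      linarith
    · intro F G
      have h4 := cut_ineq hv hl hE hη0 hη1 (F.map (Function.Embedding.subtype _))
        (G.map (Function.Embedding.subtype _)) (hgood _ _)
      rw [card_map, card_map, sum_map] at h4
      simp only [sum_map, Function.Embedding.coe_subtype] at h4
      refine le_trans (le_of_eq ?_) (h4.trans (le_of_eq ?_))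
      · ring
      · rfl
  obtain ⟨v, hvM⟩ := pattern (q := q) M' W' hM' hMd hW0 (fun e => (hWb _).2.1) hWd
    ((1 + 1 / 500) * (1191 / 1000)) (4 * η) (L0 / (2 * η)) lam rho (by positivity) hlam hrho
    (by rw [hcardA]; exact_mod_cast hqA) hcostA hH h1 (by rw [hcardA]; exact h2')
  -- the clique
  have hinj : Function.Injective v := by
    intro a b hab
    by_contra hne
    have h3 := hvM a b hne
    rw [hab, hMd] at h3
    norm_num at h3
  intro hfree
  apply hfree (univ.image (fun a => (v a).1))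
  rw [SimpleGraph.isNClique_iff]
  constructor
  · intro x hx y hy hxy
    simp only [coe_image, coe_univ, Set.image_univ, Set.mem_range] at hx hy
    obtain ⟨a, rfl⟩ := hx
    obtain ⟨b, rfl⟩ := hy
    rw [SimpleGraph.fromEdgeSet_adj]
    refine ⟨?_, hxy⟩
    have hab : a ≠ b := by rintro rfl; exact hxy rfl
    have h3 := hvM a b hab
    simp only [M', Sym2.map_mk] at h3
    by_contra hc
    unfold Mf at h3
    rw [if_neg (by simpa using hc)] at h3
    norm_num at h3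
  · rw [card_image_of_injective _ (fun a b hab => hinj (Subtype.ext hab))]
    simp

end Pool.Agent.RandomMakerLower
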