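import Pool.Agent.Work.MP_ecc80d_co.Lower.Prob

/-!
# From the functionals to cut inequalities
-/

namespace Pool.Agent.RandomMakerLower

open Pool.Agent.RandomMaker
open Finset hiding expect

section
variable {α : Type*} [DecidableEq α] {E : Finset α}

/-- Maker's indicator. -/
noncomputable def Mf (h : List (α × α)) (e : α) : ℝ := if e ∈ makerSet h then 1 else 0

/-- The compensator of Maker's indicator. -/
noncomputable def Sf (E : Finset α) (h : List (α × α)) (e : α) : ℝ :=
  if e ∈ E ∧ e ∉ makerSet h then kap E.card h e - 1 else 0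

lemma log_Zf_ge {h : List (α × α)} (hS : ∀ e, Sf E h e ≤ 2)
    (hS0 : ∀ e, 0 ≤ Sf E h e) {η : ℝ} (hη0 : 0 < η) (hη1 : η ≤ 1 / 8) {x : α → ℝ}
    (hx0 : ∀ e, 0 ≤ x e) (hx1 : ∀ e, x e ≤ 2 * η) :
    (1 - 4 * η) * ∑ e ∈ E, x e * Sf E h e - (1 + 4 * η) * ∑ e ∈ E, x e * Mf h e
      ≤ Real.log (Zf E x h) := by
  have hfac : ∀ e ∈ E, 0 < 1 + x e * (kap E.card h e - 1) ∧
      (1 - 4 * η) * (x e * Sf E h e) - (1 + 4 * η) * (x e * Mf h e) ≤
        Real.log (1 + x e * (kap E.card h e - 1)) := by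
    intro e he
    by_cases hm : e ∈ makerSet h
    · have h1 : kap E.card h e = 0 := kap_maker _ hm
      have h2 : Sf E h e = 0 := by simp [Sf, hm]
      have h3 : Mf h e = 1 := by simp [Mf, hm]
      rw [h1, h2, h3]
      have hpos : 0 < 1 + x e * (0 - 1) := by nlinarith [hx1 e]
      refine ⟨hpos, ?_⟩
      refine le_trans ?_ (Real.one_sub_inv_le_log_of_pos hpos)
      have hx := hx0 e
      have hx' := hx1 e
      have h4 : (1 + x e * (0 - 1))⁻¹ ≤ 1 + (1 + 4 * η) * x e := by
        rw [inv_le_iff_one_le_mul₀ hpos]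
        have h5 : (1 + 4 * η) * x e ≤ 4 * η := by nlinarith
        nlinarith [mul_nonneg hx (sub_nonneg.2 h5)]
      linarith
    · have h3 : Mf h e = 0 := by simp [Mf, hm]
      have h2 : kap E.card h e - 1 = Sf E h e := by simp [Sf, hm, he]
      rw [h2, h3]
      have hS' := hS e
      have hS0' := hS0 e
      have hx := hx0 e
      have hx' := hx1 e
      set y := x e * Sf E h e with hy
      have hy0 : 0 ≤ y := mul_nonneg hx hS0'
      have hy1 : y ≤ 4 * η := by
        calc y ≤ (2 * η) * 2 := mul_le_mul hx' hS' hS0' (by linarith)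
          _ = 4 * η := by ring
      have hpos : 0 < 1 + y := by linarith
      refine ⟨hpos, ?_⟩
      refine le_trans ?_ (Real.one_sub_inv_le_log_of_pos hpos)
      have h4 : (1 + y)⁻¹ ≤ 1 - (1 - 4 * η) * y := by
        rw [inv_le_iff_one_le_mul₀ hpos]
        have h5 : (1 - 4 * η) * y ≤ 4 * η := by nlinarith [mul_nonneg hη0.le hy0]
        nlinarith [mul_nonneg hy0 (sub_nonneg.2 h5)]
      linarith
  rw [Zf, Real.log_prod (fun e he => (hfac e he).1.ne'), mul_sum, mul_sum, ← sum_sub_distrib]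
  exact sum_le_sum fun e he => (hfac e he).2

end

section
variable {V : Type*} [DecidableEq V]

/-- number of ordered pairs in `F × G` spanning `e` -/
def cnt (F G : Finset V) (e : Sym2 V) : ℕ := ((F ×ˢ G).filter (fun p => s(p.1, p.2) = e)).card

lemma cnt_le_two (F G : Finset V) (e : Sym2 V) : cnt F G e ≤ 2 := by
  induction e with
  | _ a b =>
    have : (F ×ˢ G).filter (fun p => s(p.1, p.2) = s(a, b)) ⊆ {(a, b), (b, a)} := by
      intro p hp
      have := (mem_filter.mp hp).2
      rw [Sym2.eq_iff] at this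
      simp only [mem_insert, mem_singleton]
      rcases this with ⟨h1, h2⟩ | ⟨h1, h2⟩
      · left; ext <;> simp [h1, h2]
      · right; ext <;> simp [h1, h2]
    calc cnt F G s(a, b) ≤ ({(a, b), (b, a)} : Finset (V × V)).card := card_le_card this
      _ ≤ 2 := card_le_two

lemma sum_cnt (F G : Finset V) (E : Finset (Sym2 V)) (X : Sym2 V → ℝ)
    (hX : ∀ e, e ∉ E → X e = 0) :
    ∑ e ∈ E, (cnt F G e : ℝ) * X e = ∑ u ∈ F, ∑ v ∈ G, X s(u, v) := by
  rw [← sum_product']
  have h1 : ∀ e ∈ E, (cnt F G e : ℝ) * X e =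
      ∑ p ∈ F ×ˢ G, if s(p.1, p.2) = e then X e else 0 := by
    intro e _
    rw [← sum_filter, sum_const, nsmul_eq_mul]
    rfl
  rw [sum_congr rfl h1, sum_comm]
  apply sum_congr rfl
  intro p _
  rw [sum_ite_eq]
  split_ifs with hp
  · rfl
  · exact (hX _ hp).symm

omit [DecidableEq V] in
/-- A bilinear inequality holds for `[0,1]`-valued functions as soon as it holds for sets. -/
lemma bilinear_of_sets [Fintype V] (X : V → V → ℝ) (n0 : ℝ)
    (H : ∀ F G : Finset V, -(n0 * ((F.card : ℝ) + G.card)) ≤ ∑ u ∈ F, ∑ v ∈ G, X u v)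
    (f g : V → ℝ) (hf : ∀ v, 0 ≤ f v ∧ f v ≤ 1) (hg : ∀ v, 0 ≤ g v ∧ g v ≤ 1) :
    -(n0 * (∑ u, f u + ∑ v, g v)) ≤ ∑ u, ∑ v, X u v * f u * g v := by
  classical
  -- a linear form on the cube is minimised at a vertex
  have lin : ∀ (c : V → ℝ) (f : V → ℝ), (∀ v, 0 ≤ f v ∧ f v ≤ 1) →
      ∑ u ∈ univ.filter (fun u => c u < 0), c u ≤ ∑ u, c u * f u := by
    intro c f hf
    rw [sum_filter]
    apply sum_le_sum
    intro u _
    split_ifs with hc
    · nlinarith [hf u]
    · push Not at hc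
      exact mul_nonneg hc (hf u).1
  set F : Finset V := univ.filter (fun u => (∑ v, X u v * g v) + n0 < 0) with hF
  set G : Finset V := univ.filter (fun v => (∑ u ∈ F, X u v) + n0 < 0) with hG
  have h1 := lin (fun u => (∑ v, X u v * g v) + n0) f hf
  have h2 := lin (fun v => (∑ u ∈ F, X u v) + n0) g hg
  have h3 := H F G
  have e1 : ∑ u, ((∑ v, X u v * g v) + n0) * f u = ∑ u, ∑ v, X u v * f u * g v +
      n0 * ∑ u, f u := by
    rw [mul_sum, ← sum_add_distrib]
    apply sum_congr rfl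
    intro u _
    rw [add_mul, sum_mul]
    congr 1
    apply sum_congr rfl
    intro v _
    ring
  have e2 : ∑ u ∈ F, ((∑ v, X u v * g v) + n0) = ∑ v, (∑ u ∈ F, X u v) * g v +
      n0 * F.card := by
    rw [sum_add_distrib, sum_const, nsmul_eq_mul, sum_comm]
    congr 1
    · apply sum_congr rfl
      intro v _
      rw [sum_mul]
    · ring
  have e3 : ∑ v, ((∑ u ∈ F, X u v) + n0) * g v = ∑ v, (∑ u ∈ F, X u v) * g v +
      n0 * ∑ v, g v := by
    rw [mul_sum, ← sum_add_distrib]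
    apply sum_congr rfl
    intro v _
    ring
  have e4 : ∑ v ∈ G, ((∑ u ∈ F, X u v) + n0) = ∑ u ∈ F, ∑ v ∈ G, X u v + n0 * G.card := by
    rw [sum_add_distrib, sum_const, nsmul_eq_mul, sum_comm]
    ring
  simp only [← hF] at h1
  simp only [← hG] at h2
  rw [e1, e2] at h1
  rw [e3, e4] at h2
  linarith

end

end Pool.Agent.RandomMakerLower
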