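import Pool.Agent.Work.MP_ecc80d_co.Lower.Det

/-!
# The lower bound against every adaptive Breaker
-/

namespace Pool.Agent.RandomMakerLower

open Pool.Agent.RandomMaker
open Finset hiding expect

instance {α : Type*} [DecidableEq α] (E : Finset α) : Nonempty (BreakerStrategy E) := by
  classical
  exact ⟨priority E E.toList (nodup_toList E) (by simp)⟩

lemma sum_weights (N : ℕ) (a : ℝ) :
    ∑ x : Finset (Fin N) × Finset (Fin N), a ^ (x.1.card + x.2.card) = ((a + 1) ^ N) ^ 2 := by
  have h1 : ∑ F : Finset (Fin N), a ^ F.card = (a + 1) ^ N := by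
    have := Finset.sum_pow_mul_eq_add_pow a 1 (univ : Finset (Fin N))
    simp only [one_pow, mul_one, card_univ, Fintype.card_fin, powerset_univ] at this
    exact this
  rw [Fintype.sum_prod_type, pow_two, ← h1, sum_mul_sum]
  apply sum_congr rfl
  intro F _
  apply sum_congr rfl
  intro G _
  rw [pow_add]

/-- The probability estimate for fixed parameters. -/
theorem cliqueProb_ge {N q : ℕ} (hN : 2 ≤ N) (hE : 9 ≤ (Bd N).card) {η : ℝ} (hη0 : 0 < η)
    (hη1 : η ≤ 1 / 8)
    (hcost : ((4 * (Bd N).card / 9 : ℕ) : ℝ) * Real.log 2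
      + ∑ i ∈ range (4 * (Bd N).card / 9), -Real.log ((kk (Bd N).card (i + 1) - 1) / 2)
      + (((Bd N).card : ℝ) - 2 * ((4 * (Bd N).card / 9 : ℕ) : ℝ)) *
        (-Real.log ((kk (Bd N).card (4 * (Bd N).card / 9) - 1) / 2))
      ≤ 1191 / 1000 * ((Bd N).card : ℝ))
    {lam rho : ℝ} (hlam : 0 < lam) (hrho : 1 ≤ rho)
    (h1 : 1 / rho < 1 - 4 * η - 2 * (3 * Real.log N / (2 * η)) * rho ^ q / lam)
    (h2 : ∀ n : ℝ, (N : ℝ) ^ 2 ≤ 501 * n ^ 2 → 0 ≤ n → (q : ℝ) < n ∧ ∀ j : ℕ, j < q →
      lam < (n - j) * Real.exp (-(j * ((1 + 1 / 500) * (1191 / 1000)) * n / (n - j)))) :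
    1 - (((((N : ℝ) ^ 3)⁻¹ + 1) ^ N) ^ 2 - 1) ≤ cliqueProb N q := by
  classical
  have hNpos : (0 : ℝ) < N := by
    have : 0 < N := by omega
    exact_mod_cast this
  have hlogN : 0 ≤ Real.log N := Real.log_nonneg (by
    have : 1 ≤ N := by omega
    exact_mod_cast this)
  unfold cliqueProb minProb
  apply le_ciInf
  intro σ
  set a : ℝ := ((N : ℝ) ^ 3)⁻¹ with ha
  have ha0 : 0 < a := by positivity
  set S : Finset (Finset (Fin N) × Finset (Fin N)) := univ.erase (∅, ∅) with hS
  have hsumS : ∑ x ∈ S, a ^ (x.1.card + x.2.card) = ((a + 1) ^ N) ^ 2 - 1 := by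
    rw [← sum_weights N a, hS, ← add_sum_erase univ _ (mem_univ (∅, ∅))]
    simp
  rw [← hsumS]
  have key := winProb_ge (E := Bd N) σ
    (fun M => ¬ (SimpleGraph.fromEdgeSet (M : Set (Sym2 (Fin N)))).CliqueFree q)
    (by
      intro A B hAB hA hB
      apply hA
      exact hB.anti (SimpleGraph.fromEdgeSet_mono (by exact_mod_cast hAB)))
    S (fun x => ηFG η x.1 x.2) (fun x _ e => ηFG_nonneg hη0 _ _ _)
    (fun x _ e => (ηFG_le hη0 _ _ _).trans (by linarith))
    (fun x => a ^ (x.1.card + x.2.card)) (fun x _ => by positivity)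
    (4 * (Bd N).card / 9) (by omega) ?_
  · convert key
  · intro h hv hl hgood
    apply clique_of_good (L0 := 3 * Real.log N) hv hl hE hη0 hη1 (by positivity) ?_ ?_ hlam hrho
      h1 h2
    · intro F G
      by_cases hFG : (F, G) = (∅, ∅)
      · obtain ⟨rfl, rfl⟩ := Prod.mk.inj hFG
        have : Zf (Bd N) (ηFG η (∅ : Finset (Fin N)) ∅) h = 1 := by
          unfold Zf ηFG cnt
          simp
        rw [this]
        simp
      · have hx : (F, G) ∈ S := by rw [hS, mem_erase]; exact ⟨hFG, mem_univ _⟩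
        have h3 := hgood (F, G) hx
        simp only at h3
        have h4 : 0 ≤ Zf (Bd N) (ηFG η F G) h :=
          Zf_nonneg (ηFG_nonneg hη0 _ _) (fun e => (ηFG_le hη0 _ _ _).trans (by linarith)) hv
        rcases h4.lt_or_eq with h5 | h5
        · have h6 : Real.log (a ^ (F.card + G.card) * Zf (Bd N) (ηFG η F G) h) ≤ 0 :=
            Real.log_nonpos (by positivity) h3
          rw [Real.log_mul (by positivity) h5.ne', Real.log_pow, ha, Real.log_inv,
            Real.log_pow] at h6
          push_cast at h6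
          linarith
        · rw [← h5, Real.log_zero]
          positivity
    · rw [cost_total hv, hl]
      exact hcost

theorem lower (ε : ℝ) (hε : 0 < ε) : ∀ᶠ N : ℕ in Filter.atTop, ∀ q : ℕ,
    (q : ℝ) ≤ 5 / 6 * Real.log N → 1 - ε < cliqueProb N q := by
  obtain ⟨T0, hT0⟩ := cost_sum
  have hlogtop : Filter.Tendsto (fun N : ℕ => Real.log (N : ℝ)) Filter.atTop Filter.atTop :=
    Real.tendsto_log_atTop.comp tendsto_natCast_atTop_atTop
  -- eventual inequalities
  have ev1 : ∀ᶠ N : ℕ in Filter.atTop, Real.exp (2 / (N : ℝ)) < 1 + ε := by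
    have h1 : Filter.Tendsto (fun N : ℕ => Real.exp (2 / (N : ℝ))) Filter.atTop
        (nhds (Real.exp 0)) := by
      apply (Real.continuous_exp.tendsto 0).comp
      exact tendsto_const_div_atTop_nhds_zero_nat 2
    rw [Real.exp_zero] at h1
    exact h1.eventually (gt_mem_nhds (by linarith))
  have ev2 : ∀ᶠ N : ℕ in Filter.atTop,
      32000 * (Real.log N * Real.exp (-(7 / 4000 * Real.log N))) < 11 / 10000 := by
    have h1 : Filter.Tendsto (fun x : ℝ => x ^ 1 * Real.exp (-x)) Filter.atTop (nhds 0) :=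
      Real.tendsto_pow_mul_exp_neg_atTop_nhds_zero 1
    have h2 : Filter.Tendsto (fun N : ℕ => 7 / 4000 * Real.log (N : ℝ)) Filter.atTop
        Filter.atTop := hlogtop.const_mul_atTop (by norm_num)
    have h3 := h1.comp h2
    have h4 : ∀ᶠ N : ℕ in Filter.atTop, (7 / 4000 * Real.log (N : ℝ)) ^ 1 *
        Real.exp (-(7 / 4000 * Real.log (N : ℝ))) < 1 / 100000000000 :=
      h3.eventually (gt_mem_nhds (by norm_num))
    filter_upwards [h4] with N hN
    rw [pow_one] at hN
    linarith
  have ev3 : ∀ᶠ N : ℕ in Filter.atTop, Real.log N ≤ 1 / 46000 * (N : ℝ) := by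
    have h1 : ∀ᶠ x : ℝ in Filter.atTop, Real.log x ≤ 1 / 46000 * x := by
      have := (Real.isLittleO_log_id_atTop.bound (show (0 : ℝ) < 1 / 46000 by norm_num))
      filter_upwards [this, Filter.eventually_ge_atTop 1] with x hx h1
      simp only [id, Real.norm_eq_abs] at hx
      rw [abs_of_nonneg (show (0 : ℝ) ≤ x by linarith)] at hx
      exact (le_abs_self _).trans hx
    exact tendsto_natCast_atTop_atTop.eventually h1
  have ev4 : ∀ᶠ N : ℕ in Filter.atTop, 24 < Real.exp (1 / 500 * Real.log N) := by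
    have h2 : Filter.Tendsto (fun N : ℕ => 1 / 500 * Real.log (N : ℝ)) Filter.atTop
        Filter.atTop := hlogtop.const_mul_atTop (by norm_num)
    exact (Real.tendsto_exp_atTop.comp h2).eventually_gt_atTop 24
  filter_upwards [ev1, ev2, ev3, ev4, Filter.eventually_ge_atTop 10,
    Filter.eventually_ge_atTop T0] with N hN1 hN2 hN3 hN4 hN5 hN6 q hq
  set L := Real.log (N : ℝ) with hL
  have hNpos : (0 : ℝ) < N := by
    have : 0 < N := by omega
    exact_mod_cast this
  have hN10 : (10 : ℝ) ≤ N := by exact_mod_cast hN5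
  have hLpos : 0 < L := Real.log_pos (by linarith)
  have hcardBd : (Bd N).card = N.choose 2 := card_topEdges N
  have hchoose : N ≤ N.choose 2 := by
    rw [Nat.choose_two_right, Nat.le_div_iff_mul_le (by norm_num)]
    apply Nat.mul_le_mul_left
    omega
  have hexpL : Real.exp L = N := Real.exp_log hNpos
  have main := cliqueProb_ge (N := N) (q := q) (η := 3 / 32000)
    (lam := Real.exp (3 / 1000 * L)) (rho := 1 + 3 / 2000) (by omega) (by omega) (by norm_num)
    (by norm_num) (hT0 _ (by omega)) (Real.exp_pos _) (by norm_num) ?_ ?_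
  · refine lt_of_lt_of_le ?_ main
    have h1 : (((N : ℝ) ^ 3)⁻¹ + 1) ^ N ≤ Real.exp (1 / (N : ℝ)) := by
      calc (((N : ℝ) ^ 3)⁻¹ + 1) ^ N ≤ (Real.exp (((N : ℝ) ^ 3)⁻¹)) ^ N := by
            apply pow_le_pow_left₀ (by positivity)
            exact Real.add_one_le_exp _
        _ = Real.exp (N * ((N : ℝ) ^ 3)⁻¹) := by rw [← Real.exp_nat_mul]
        _ ≤ Real.exp (1 / (N : ℝ)) := by
            apply Real.exp_le_exp.mpr
            rw [← div_eq_mul_inv, div_le_div_iff₀ (by positivity) hNpos]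
            nlinarith [mul_pos hNpos hNpos]
    have h2 : ((((N : ℝ) ^ 3)⁻¹ + 1) ^ N) ^ 2 ≤ Real.exp (2 / (N : ℝ)) := by
      calc ((((N : ℝ) ^ 3)⁻¹ + 1) ^ N) ^ 2 ≤ (Real.exp (1 / (N : ℝ))) ^ 2 :=
            pow_le_pow_left₀ (by positivity) h1 2
        _ = Real.exp (2 / (N : ℝ)) := by
            rw [← Real.exp_nat_mul]; congr 1; push_cast; ring
    linarith
  · -- condition (a)
    have h1 : (1 + 3 / 2000 : ℝ) ^ q ≤ Real.exp (1 / 800 * L) := by
      calc (1 + 3 / 2000 : ℝ) ^ q ≤ (Real.exp (3 / 2000)) ^ q := by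
            apply pow_le_pow_left₀ (by norm_num)
            have := Real.add_one_le_exp (3 / 2000 : ℝ)
            linarith
        _ = Real.exp (q * (3 / 2000)) := by rw [← Real.exp_nat_mul]
        _ ≤ Real.exp (1 / 800 * L) := by
            apply Real.exp_le_exp.mpr
            linarith
    have h2 : 2 * (3 * L / (2 * (3 / 32000))) * (1 + 3 / 2000) ^ q / Real.exp (3 / 1000 * L) ≤
        32000 * (L * Real.exp (-(7 / 4000 * L))) := by
      rw [div_le_iff₀ (Real.exp_pos _)]
      have e1 : 32000 * (L * Real.exp (-(7 / 4000 * L))) * Real.exp (3 / 1000 * L) =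
          32000 * L * Real.exp (1 / 800 * L) := by
        have : Real.exp (1 / 800 * L) = Real.exp (-(7 / 4000 * L)) * Real.exp (3 / 1000 * L) := by
          rw [← Real.exp_add]; congr 1; ring
        rw [this]; ring
      rw [e1]
      have e2 : 2 * (3 * L / (2 * (3 / 32000))) = 32000 * L := by ring
      rw [e2]
      apply mul_le_mul_of_nonneg_left h1 (by positivity)
    have h3 : (1 : ℝ) / (1 + 3 / 2000) < 1 - 4 * (3 / 32000) - 11 / 10000 := by norm_num
    linarith
  · -- condition (b)
    intro n hn1 hn0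
    have hn2 : (N : ℝ) ≤ 23 * n := by
      have : (N : ℝ) ^ 2 ≤ (23 * n) ^ 2 := by nlinarith
      exact (pow_le_pow_iff_left₀ hNpos.le (by positivity) (by norm_num)).mp this
    have hnL : 2000 * L ≤ n := by linarith
    refine ⟨by linarith, fun j hj => ?_⟩
    have hj' : (j : ℝ) ≤ 5 / 6 * L := by
      have : (j : ℝ) ≤ q := by exact_mod_cast hj.le
      linarith
    have hj0 : (0 : ℝ) ≤ j := by positivity
    have hnj : 1999 / 2000 * n ≤ n - j := by linarith
    have hnpos : 0 < n := by linarith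
    have hnj0 : 0 < n - j := by linarith
    have h3 : (j : ℝ) * ((1 + 1 / 500) * (1191 / 1000)) * n / (n - j) ≤ 199 / 200 * L := by
      rw [div_le_iff₀ hnj0]
      calc (j : ℝ) * ((1 + 1 / 500) * (1191 / 1000)) * n
          ≤ (5 / 6 * L) * ((1 + 1 / 500) * (1191 / 1000)) * n := by gcongr
        _ ≤ 199 / 200 * L * (1999 / 2000 * n) := by
            have : 0 ≤ L * n := by positivity
            nlinarith
        _ ≤ 199 / 200 * L * (n - j) := by gcongr
    have h4 : Real.exp (-(199 / 200 * L)) ≤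
        Real.exp (-(j * ((1 + 1 / 500) * (1191 / 1000)) * n / (n - j))) :=
      Real.exp_le_exp.mpr (by linarith)
    calc Real.exp (3 / 1000 * L) < Real.exp (3 / 1000 * L) * (Real.exp (1 / 500 * L) / 24) := by
          have h5 : 1 < Real.exp (1 / 500 * L) / 24 := by rw [lt_div_iff₀ (by norm_num)]; linarith
          have := Real.exp_pos (3 / 1000 * L)
          nlinarith
      _ = (N / 24) * Real.exp (-(199 / 200 * L)) := by
          rw [← hexpL]
          have : Real.exp L * Real.exp (-(199 / 200 * L)) =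
              Real.exp (3 / 1000 * L) * Real.exp (1 / 500 * L) := by
            rw [← Real.exp_add, ← Real.exp_add]; congr 1; ring
          calc _ = (Real.exp (3 / 1000 * L) * Real.exp (1 / 500 * L)) / 24 := by ring
            _ = _ := by rw [← this]; ring
      _ ≤ (n - j) * Real.exp (-(199 / 200 * L)) := by
          apply mul_le_mul_of_nonneg_right _ (Real.exp_pos _).le
          linarith
      _ ≤ _ := by
          apply mul_le_mul_of_nonneg_left h4 hnj0.le

end Pool.Agent.RandomMakerLower
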