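import Pool.Agent.Work.MP_ecc80d_co.Board

/-!
# Tools for the random Maker game against an adaptive Breaker
-/

namespace Pool.Agent.RandomMakerLower

open Pool.Agent.RandomMaker
open Finset hiding expect

variable {α : Type*} [DecidableEq α] {E : Finset α}

/-- The expected value of `F` of the history after `r` more rounds. -/
noncomputable def hexp (E : Finset α) (σ : BreakerStrategy E) (F : List (α × α) → ℝ) :
    ℕ → List (α × α) → ℝ
  | 0, h => F h
  | r + 1, h => (∑ m ∈ E \ claimed h, hexp E σ F r ((m, σ.move h m) :: h)) /
      ((E \ claimed h).card : ℝ)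

/-- Histories in which all moves are legal. -/
def Valid (E : Finset α) : List (α × α) → Prop
  | [] => True
  | (m, b) :: h => Valid E h ∧ m ∈ E \ claimed h ∧ b ∈ E \ insert m (claimed h)

lemma claimed_nil : claimed ([] : List (α × α)) = ∅ := by simp [claimed]

lemma makerSet_nil : makerSet ([] : List (α × α)) = ∅ := by simp [makerSet]

lemma sdiff_claimed_cons (m b : α) (h : List (α × α)) :
    E \ claimed ((m, b) :: h) = ((E \ claimed h).erase m).erase b := by
  ext x
  simp [claimed_cons]
  tauto

lemma card_free : ∀ {h : List (α × α)}, Valid E h → (E \ claimed h).card + 2 * h.length = E.card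
  | [], _ => by simp [claimed_nil]
  | (m, b) :: h, hv => by
    obtain ⟨hv', hm, hb⟩ := hv
    have ih := card_free hv'
    have hb' : b ∈ (E \ claimed h).erase m := by
      simp at hb ⊢
      tauto
    rw [sdiff_claimed_cons, card_erase_of_mem hb', card_erase_of_mem hm, List.length_cons]
    have h1 : 0 < ((E \ claimed h).erase m).card := card_pos.mpr ⟨b, hb'⟩
    rw [card_erase_of_mem hm] at h1
    omega

lemma claimed_subset : ∀ {h : List (α × α)}, Valid E h → claimed h ⊆ E
  | [], _ => by simp [claimed_nil]
  | (m, b) :: h, hv => by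
    obtain ⟨hv', hm, hb⟩ := hv
    have ih := claimed_subset hv'
    rw [claimed_cons]
    intro x hx
    simp only [mem_insert] at hx
    rcases hx with rfl | rfl | hx
    · exact (mem_sdiff.mp hm).1
    · exact (mem_sdiff.mp hb).1
    · exact ih hx

lemma valid_step (σ : BreakerStrategy E) {h : List (α × α)} (hv : Valid E h)
    (h2 : 2 ≤ (E \ claimed h).card) {m : α} (hm : m ∈ E \ claimed h) :
    Valid E ((m, σ.move h m) :: h) := by
  refine ⟨hv, hm, σ.legal h m ?_⟩
  have : E \ insert m (claimed h) = (E \ claimed h).erase m := by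
    ext x; simp; tauto
  rw [this, ← card_pos, card_erase_of_mem hm]
  omega

lemma hexp_mono (σ : BreakerStrategy E) {F G : List (α × α) → ℝ} :
    ∀ (r : ℕ) (h : List (α × α)), Valid E h → 2 * (h.length + r) ≤ E.card →
      (∀ h', Valid E h' → h'.length = h.length + r → F h' ≤ G h') →
      hexp E σ F r h ≤ hexp E σ G r h
  | 0, h, hv, _, H => H h hv rfl
  | r + 1, h, hv, hc, H => by
    simp only [hexp]
    apply div_le_div_of_nonneg_right _ (Nat.cast_nonneg _)
    have hcard := card_free hv
    refine sum_le_sum fun m hm => ?_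
    refine hexp_mono σ r _ (valid_step σ hv (by omega) hm) (by simp; omega) ?_
    intro h' hv' hl
    exact H h' hv' (by rw [hl, List.length_cons]; ring)

lemma hexp_sum {ι : Type*} (σ : BreakerStrategy E) (S : Finset ι)
    (F : ι → List (α × α) → ℝ) :
    ∀ (r : ℕ) (h : List (α × α)),
      hexp E σ (fun h' => ∑ i ∈ S, F i h') r h = ∑ i ∈ S, hexp E σ (F i) r h
  | 0, h => rfl
  | r + 1, h => by
    simp only [hexp]
    rw [← Finset.sum_div, Finset.sum_comm]
    congr 1
    exact sum_congr rfl fun m _ => hexp_sum σ S F r _

lemma hexp_mul (σ : BreakerStrategy E) (c : ℝ) (F : List (α × α) → ℝ) :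
    ∀ (r : ℕ) (h : List (α × α)),
      hexp E σ (fun h' => c * F h') r h = c * hexp E σ F r h
  | 0, h => rfl
  | r + 1, h => by
    simp only [hexp]
    rw [← mul_div_assoc, mul_sum]
    congr 1
    exact sum_congr rfl fun m _ => hexp_mul σ c F r _

lemma hexp_sub (σ : BreakerStrategy E) (F G : List (α × α) → ℝ) :
    ∀ (r : ℕ) (h : List (α × α)),
      hexp E σ (fun h' => F h' - G h') r h = hexp E σ F r h - hexp E σ G r h
  | 0, h => rfl
  | r + 1, h => by
    simp only [hexp]
    rw [← sub_div, ← sum_sub_distrib]
    congr 1
    exact sum_congr rfl fun m _ => hexp_sub σ F G r _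

lemma hexp_const (σ : BreakerStrategy E) (c : ℝ) :
    ∀ (r : ℕ) (h : List (α × α)), Valid E h → 2 * (h.length + r) ≤ E.card →
      hexp E σ (fun _ => c) r h = c
  | 0, h, _, _ => rfl
  | r + 1, h, hv, hc => by
    simp only [hexp]
    have hcard := card_free hv
    have h0 : (0 : ℝ) < ((E \ claimed h).card : ℝ) := by
      have : 0 < (E \ claimed h).card := by omega
      exact_mod_cast this
    rw [sum_congr rfl fun m hm => hexp_const σ c r _ (valid_step σ hv (by omega) hm)
      (by simp; omega)]
    rw [sum_const, nsmul_eq_mul]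
    field_simp

/-- A function which does not increase on average does not increase in expectation. -/
lemma hexp_le_of_super (σ : BreakerStrategy E) (F : List (α × α) → ℝ)
    (H : ∀ h, Valid E h → 2 ≤ (E \ claimed h).card →
      (∑ m ∈ E \ claimed h, F ((m, σ.move h m) :: h)) / ((E \ claimed h).card : ℝ) ≤ F h) :
    ∀ (r : ℕ) (h : List (α × α)), Valid E h → 2 * (h.length + r) ≤ E.card →
      hexp E σ F r h ≤ F h
  | 0, h, _, _ => le_rfl
  | r + 1, h, hv, hc => by
    have hcard := card_free hv
    refine le_trans ?_ (H h hv (by omega))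
    simp only [hexp]
    apply div_le_div_of_nonneg_right _ (Nat.cast_nonneg _)
    refine sum_le_sum fun m hm => ?_
    exact hexp_le_of_super σ F H r _ (valid_step σ hv (by omega) hm) (by simp; omega)

lemma expect_split (σ : BreakerStrategy E) (f : Finset α → ℝ) (k : ℕ) :
    ∀ (r : ℕ) (h : List (α × α)),
      expect E σ f (k + 2 * r) h = hexp E σ (fun h' => expect E σ f k h') r h
  | 0, h => by simp [hexp]
  | r + 1, h => by
    have : k + 2 * (r + 1) = (k + 2 * r) + 2 := by ring
    rw [this]
    simp only [expect, hexp]
    congr 1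
    exact sum_congr rfl fun m _ => expect_split σ f k r _

open Classical in
lemma expect_eq_one (σ : BreakerStrategy E) (W : Finset α → Prop)
    (hup : ∀ A B : Finset α, A ⊆ B → W A → W B) :
    ∀ (k : ℕ) (h : List (α × α)), Valid E h → k = (E \ claimed h).card → W (makerSet h) →
      expect E σ (fun M => if W M then (1 : ℝ) else 0) k h = 1
  | 0, h, _, _, hW => by simp [expect, hW]
  | 1, h, _, hk, hW => by
    simp only [expect]
    rw [← hk]
    have : ∀ m ∈ E \ claimed h, (if W (insert m (makerSet h)) then (1 : ℝ) else 0) = 1 := by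
      intro m _
      rw [if_pos (hup _ _ (subset_insert _ _) hW)]
    rw [sum_congr rfl this]
    simp [← hk]
  | k + 2, h, hv, hk, hW => by
    simp only [expect]
    have h0 : (0 : ℝ) < ((E \ claimed h).card : ℝ) := by
      have : 0 < (E \ claimed h).card := by omega
      exact_mod_cast this
    have hcard := card_free hv
    have : ∀ m ∈ E \ claimed h,
        expect E σ (fun M => if W M then (1 : ℝ) else 0) k ((m, σ.move h m) :: h) = 1 := by
      intro m hm
      have hv' := valid_step σ hv (by omega) hm
      refine expect_eq_one σ W hup k _ hv' ?_ ?_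
      · have := card_free hv'
        simp at this
        omega
      · rw [makerSet_cons]
        exact hup _ _ (subset_insert _ _) hW
    rw [sum_congr rfl this, sum_const, nsmul_eq_mul, mul_one]
    exact div_self h0.ne'

end Pool.Agent.RandomMakerLower
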