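import Pool.Agent.Work.MP_ecc80d_co.Lower.Game

/-!
# The compensator `kap` and the product supermartingale
-/

namespace Pool.Agent.RandomMakerLower

open Pool.Agent.RandomMaker
open Finset hiding expect

variable {α : Type*} [DecidableEq α] {E : Finset α}

/-- `kk T j = ∏_{i<j} n_i / (n_i - 1)`, `n_i = T - 2 i`. -/
noncomputable def kk (T j : ℕ) : ℝ :=
  ∏ i ∈ range j, (((T : ℝ) - 2 * i) / ((T : ℝ) - 2 * i - 1))

/-- The process `κ_e`: it is multiplied by `n / (n - 1)` in every round as long as `e` is
unclaimed, it is frozen when Breaker claims `e` and it is set to `0` when Maker claims `e`. -/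
noncomputable def kap (T : ℕ) : List (α × α) → α → ℝ
  | [], _ => 1
  | (m, _) :: h, e => if e = m then 0 else if e ∈ claimed h then kap T h e else
      kap T h e * (((T : ℝ) - 2 * h.length) / ((T : ℝ) - 2 * h.length - 1))

lemma kap_free (T : ℕ) : ∀ {h : List (α × α)} {e : α}, e ∉ claimed h →
    kap T h e = kk T h.length
  | [], e, _ => by simp [kap, kk]
  | (m, b) :: h, e, he => by
    rw [claimed_cons] at he
    simp only [mem_insert, not_or] at he
    obtain ⟨h1, h2, h3⟩ := he
    simp only [kap, if_neg h1, if_neg h3, List.length_cons]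
    rw [kap_free T h3, kk, kk, prod_range_succ]

lemma kap_maker (T : ℕ) : ∀ {h : List (α × α)} {e : α}, e ∈ makerSet h → kap T h e = 0
  | [], e, he => by simp [makerSet] at he
  | (m, b) :: h, e, he => by
    rw [makerSet_cons] at he
    simp only [mem_insert] at he
    by_cases h1 : e = m
    · simp [kap, h1]
    · have h2 : e ∈ makerSet h := by tauto
      simp only [kap, if_neg h1, if_pos (makerSet_subset_claimed h h2)]
      exact kap_maker T h2

lemma kap_breaker (T : ℕ) : ∀ {h : List (α × α)} {e : α}, e ∈ claimed h → e ∉ makerSet h →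
    ∃ i, i < h.length ∧ kap T h e = kk T (i + 1)
  | [], e, he, _ => by simp [claimed] at he
  | (m, b) :: h, e, he, hm => by
    rw [makerSet_cons] at hm
    simp only [mem_insert, not_or] at hm
    rw [claimed_cons] at he
    simp only [mem_insert] at he
    by_cases h3 : e ∈ claimed h
    · obtain ⟨i, hi, hk⟩ := kap_breaker T h3 hm.2
      refine ⟨i, by simp; omega, ?_⟩
      simp only [kap, if_neg hm.1, if_pos h3, hk]
    · refine ⟨h.length, by simp, ?_⟩
      simp only [kap, if_neg hm.1, if_neg h3]
      rw [kap_free T h3, kk, kk, prod_range_succ]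

lemma one_le_kk {T j : ℕ} (h : 2 * j ≤ T) : 1 ≤ kk T j := by
  unfold kk
  calc (1 : ℝ) = ∏ i ∈ range j, (1 : ℝ) := by simp
    _ ≤ _ := by
      apply Finset.prod_le_prod
      · intro i _; norm_num
      · intro i hi
        rw [mem_range] at hi
        have : (2 : ℝ) * i + 2 ≤ T := by exact_mod_cast (by omega : 2 * i + 2 ≤ T)
        rw [le_div_iff₀ (by linarith)]
        linarith

lemma kap_nonneg {h : List (α × α)} (hv : Valid E h) (e : α) : 0 ≤ kap E.card h e := by
  have hc := card_free hv
  by_cases h1 : e ∈ claimed h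
  · by_cases h2 : e ∈ makerSet h
    · rw [kap_maker _ h2]
    · obtain ⟨i, hi, hk⟩ := kap_breaker E.card h1 h2
      rw [hk]
      exact zero_le_one.trans (one_le_kk (by omega))
  · rw [kap_free _ h1]
    exact zero_le_one.trans (one_le_kk (by omega))

lemma one_sub_sum_le_prod {ι : Type*} (s : Finset ι) (θ : ι → ℝ)
    (h0 : ∀ i ∈ s, 0 ≤ θ i) (h1 : ∀ i ∈ s, θ i ≤ 1) :
    1 - ∑ i ∈ s, θ i ≤ ∏ i ∈ s, (1 - θ i) := by
  classical
  induction s using Finset.induction_on with
  | empty => simp
  | insert a s ha ih =>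
    rw [sum_insert ha, prod_insert ha]
    have ih' := ih (fun i hi => h0 i (mem_insert_of_mem hi)) (fun i hi => h1 i (mem_insert_of_mem hi))
    have hp1 : ∏ i ∈ s, (1 - θ i) ≤ 1 := by
      apply prod_le_one
      · intro i hi; have := h1 i (mem_insert_of_mem hi); linarith
      · intro i hi; have := h0 i (mem_insert_of_mem hi); linarith
    have ha0 := h0 a (mem_insert_self _ _)
    nlinarith

/-- The product functional. -/
noncomputable def Zf (E : Finset α) (η : α → ℝ) (h : List (α × α)) : ℝ :=
  ∏ e ∈ E, (1 + η e * (kap E.card h e - 1))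

lemma Zf_nil (η : α → ℝ) : Zf E η [] = 1 := by simp [Zf, kap]

lemma Zf_nonneg {η : α → ℝ} (h0 : ∀ e, 0 ≤ η e) (h1 : ∀ e, η e ≤ 1) {h : List (α × α)}
    (hv : Valid E h) : 0 ≤ Zf E η h := by
  apply prod_nonneg
  intro e _
  have := kap_nonneg hv e
  nlinarith [h0 e, h1 e]

lemma Zf_super (σ : BreakerStrategy E) {η : α → ℝ} (h0 : ∀ e, 0 ≤ η e) (h1 : ∀ e, η e ≤ 1)
    (h : List (α × α)) (hv : Valid E h) (h2 : 2 ≤ (E \ claimed h).card) :
    (∑ m ∈ E \ claimed h, Zf E η ((m, σ.move h m) :: h)) / ((E \ claimed h).card : ℝ)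
      ≤ Zf E η h := by
  have hc := card_free hv
  set n : ℝ := ((E \ claimed h).card : ℝ) with hn
  have hn2 : (2 : ℝ) ≤ n := by rw [hn]; exact_mod_cast h2
  have hTn : ((E.card : ℝ) - 2 * h.length) = n := by
    rw [hn, ← hc]; push_cast; ring
  set K : ℝ := kk E.card h.length with hK
  have hK1 : 1 ≤ K := one_le_kk (by omega)
  set P0 : ℝ := ∏ e ∈ E ∩ claimed h, (1 + η e * (kap E.card h e - 1)) with hP0
  have hP0n : 0 ≤ P0 := by
    apply prod_nonneg
    intro e _
    have := kap_nonneg hv e
    nlinarith [h0 e, h1 e]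
  have hsplit : ∀ f : α → ℝ, ∏ e ∈ E, f e = (∏ e ∈ E ∩ claimed h, f e) *
      ∏ e ∈ E \ claimed h, f e := by
    intro f
    rw [← prod_union]
    · congr 1
      ext x; simp; tauto
    · rw [disjoint_left]
      intro x; simp; tauto
  set a : α → ℝ := fun e => 1 + η e * (K - 1) with ha
  set ap : α → ℝ := fun e => 1 + η e * (K * (n / (n - 1)) - 1) with hap
  have hfrac : 1 ≤ n / (n - 1) := by rw [le_div_iff₀ (by linarith)]; linarith
  have hKf : K ≤ K * (n / (n - 1)) := by nlinarith
  have ha1 : ∀ e, 1 ≤ a e := fun e => by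
    simp only [ha]; nlinarith [h0 e]
  have hapa : ∀ e, a e ≤ ap e := fun e => by
    simp only [ha, hap]; nlinarith [h0 e]
  have hZh : Zf E η h = P0 * ∏ e ∈ E \ claimed h, a e := by
    rw [Zf, hsplit]
    congr 1
    apply prod_congr rfl
    intro e he
    rw [kap_free _ (mem_sdiff.mp he).2]
  have hZm : ∀ m ∈ E \ claimed h, Zf E η ((m, σ.move h m) :: h) =
      P0 * ((∏ e ∈ E \ claimed h, ap e) * (1 - n * (1 - a m / ap m))) := by
    intro m hm
    rw [Zf, hsplit]
    congr 1
    · apply prod_congr rfl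
      intro e he
      have he' := (mem_inter.mp he).2
      have hne : e ≠ m := by
        rintro rfl
        exact (mem_sdiff.mp hm).2 he'
      simp only [kap, if_neg hne, if_pos he']
    · rw [← mul_prod_erase _ _ hm, ← mul_prod_erase (E \ claimed h) ap hm]
      have h3 : ∀ e ∈ (E \ claimed h).erase m,
          1 + η e * (kap E.card ((m, σ.move h m) :: h) e - 1) = ap e := by
        intro e he
        have hne := (mem_erase.mp he).1
        have he' := (mem_sdiff.mp (mem_erase.mp he).2).2
        simp only [kap, if_neg hne, if_neg he', hTn, kap_free _ he', hap, hK]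
      rw [prod_congr rfl h3]
      have h4 : 1 + η m * (kap E.card ((m, σ.move h m) :: h) m - 1) = 1 - η m := by
        simp [kap]; ring
      rw [h4]
      have h5 : 0 < ap m := by linarith [ha1 m, hapa m]
      have h6 : 1 - η m = ap m * (1 - n * (1 - a m / ap m)) := by
        have : a m = (1 / n) * (1 - η m) + ((n - 1) / n) * ap m := by
          simp only [ha, hap]
          have : n - 1 ≠ 0 := by linarith
          field_simp
          ring
        have h7 : ap m * (1 - n * (1 - a m / ap m)) = ap m - n * ap m + n * a m := by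
          field_simp
          ring
        rw [h7, this]
        field_simp
        ring
      rw [h6]
      ring
  rw [sum_congr rfl hZm, ← mul_sum, ← mul_sum, sum_sub_distrib, sum_const, nsmul_eq_mul, mul_one,
    ← mul_sum, ← hn, hZh]
  have hθ := one_sub_sum_le_prod (E \ claimed h) (fun m => 1 - a m / ap m)
    (fun m _ => by
      have h5 : 0 < ap m := by linarith [ha1 m, hapa m]
      have : a m / ap m ≤ 1 := by rw [div_le_one h5]; exact hapa m
      linarith)
    (fun m _ => by
      have h5 : 0 < ap m := by linarith [ha1 m, hapa m]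
      have : 0 ≤ a m / ap m := div_nonneg (by linarith [ha1 m]) h5.le
      linarith)
  have hprod : ∏ m ∈ E \ claimed h, (1 - (1 - a m / ap m)) =
      (∏ m ∈ E \ claimed h, a m) / ∏ m ∈ E \ claimed h, ap m := by
    rw [← prod_div_distrib]
    apply prod_congr rfl
    intro m _
    ring
  rw [hprod] at hθ
  have hApos : 0 < ∏ m ∈ E \ claimed h, ap m :=
    prod_pos fun m _ => by linarith [ha1 m, hapa m]
  rw [le_div_iff₀ hApos] at hθ
  have hne : n ≠ 0 := by linarith
  calc P0 * ((∏ e ∈ E \ claimed h, ap e) * (n - n * ∑ m ∈ E \ claimed h, (1 - a m / ap m))) / n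
      = P0 * ((1 - ∑ m ∈ E \ claimed h, (1 - a m / ap m)) * ∏ e ∈ E \ claimed h, ap e) := by
        field_simp
    _ ≤ P0 * ∏ m ∈ E \ claimed h, a m := by
        apply mul_le_mul_of_nonneg_left hθ hP0n

/-- The expectation of the product functional is at most one. -/
lemma hexp_Zf_le (σ : BreakerStrategy E) {η : α → ℝ} (h0 : ∀ e, 0 ≤ η e) (h1 : ∀ e, η e ≤ 1)
    (r : ℕ) (hr : 2 * r ≤ E.card) : hexp E σ (Zf E η) r [] ≤ 1 := by
  rw [← Zf_nil (E := E) η]
  exact hexp_le_of_super σ _ (Zf_super σ h0 h1) r [] trivial (by simpa using hr)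

end Pool.Agent.RandomMakerLower
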