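import Pool.Agent.Work.MP_ecc80d_co.Lower.Kappa

/-!
# The probability bound
-/

namespace Pool.Agent.RandomMakerLower

open Pool.Agent.RandomMaker
open Finset hiding expect

variable {α : Type*} [DecidableEq α] {E : Finset α}

/-- If the winning family contains Maker's set for every history of length `J` for which the
functionals `Zf (η i)` are not large, then Maker wins with probability at least
`1 - ∑ wt i`. -/
theorem winProb_ge (σ : BreakerStrategy E) (W : Finset α → Prop)
    (hup : ∀ A B : Finset α, A ⊆ B → W A → W B) {ι : Type*} (S : Finset ι) (η : ι → α → ℝ)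
    (h0 : ∀ i ∈ S, ∀ e, 0 ≤ η i e) (h1 : ∀ i ∈ S, ∀ e, η i e ≤ 1) (wt : ι → ℝ)
    (hwt : ∀ i ∈ S, 0 ≤ wt i) (J : ℕ) (hJ : 2 * J ≤ E.card)
    (good : ∀ h, Valid E h → h.length = J → (∀ i ∈ S, wt i * Zf E (η i) h ≤ 1) →
      W (makerSet h)) :
    1 - ∑ i ∈ S, wt i ≤ winProb E W σ := by
  classical
  obtain ⟨k, hk⟩ : ∃ k, E.card = k + 2 * J := ⟨E.card - 2 * J, by omega⟩
  unfold winProb
  rw [hk, expect_split]
  have key : hexp E σ (fun h => 1 - ∑ i ∈ S, wt i * Zf E (η i) h) J [] ≤
      hexp E σ (fun h' => RandomMaker.expect E σ (fun M => if W M then (1 : ℝ) else 0) k h') J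
        [] := by
    refine hexp_mono σ J [] trivial (by simpa using hJ) ?_
    intro h hv hl
    simp only [List.length_nil, zero_add] at hl
    have hcard := card_free hv
    by_cases hg : ∀ i ∈ S, wt i * Zf E (η i) h ≤ 1
    · have hW := good h hv hl hg
      have h3 : RandomMaker.expect E σ (fun M => if W M then (1 : ℝ) else 0) k h = 1 := by
        have := expect_eq_one σ W hup k h hv (by omega) hW
        convert this
      rw [h3]
      have : 0 ≤ ∑ i ∈ S, wt i * Zf E (η i) h :=
        sum_nonneg fun i hi => mul_nonneg (hwt i hi) (Zf_nonneg (h0 i hi) (h1 i hi) hv)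
      linarith
    · push Not at hg
      obtain ⟨i, hi, hgt⟩ := hg
      have h3 : 0 ≤ RandomMaker.expect E σ (fun M => if W M then (1 : ℝ) else 0) k h := by
        apply RandomMaker.expect_nonneg
        intro M
        split_ifs <;> norm_num
      have h4 : wt i * Zf E (η i) h ≤ ∑ i ∈ S, wt i * Zf E (η i) h :=
        single_le_sum (f := fun i => wt i * Zf E (η i) h)
          (fun i hi => mul_nonneg (hwt i hi) (Zf_nonneg (h0 i hi) (h1 i hi) hv)) hi
      linarith
  have h5 : hexp E σ (fun h => 1 - ∑ i ∈ S, wt i * Zf E (η i) h) J [] =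
      1 - ∑ i ∈ S, wt i * hexp E σ (Zf E (η i)) J [] := by
    rw [hexp_sub σ (fun _ => (1 : ℝ)) (fun h => ∑ i ∈ S, wt i * Zf E (η i) h) J [],
      hexp_const σ 1 J [] trivial (by simpa using hJ), hexp_sum]
    congr 1
    exact sum_congr rfl fun i _ => hexp_mul σ _ _ _ _
  have h6 : ∑ i ∈ S, wt i * hexp E σ (Zf E (η i)) J [] ≤ ∑ i ∈ S, wt i := by
    apply sum_le_sum
    intro i hi
    have := hexp_Zf_le σ (h0 i hi) (h1 i hi) J hJ
    nlinarith [hwt i hi]
  refine le_trans ?_ (le_trans key (le_of_eq ?_))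
  · rw [h5]; linarith
  · congr 1
    
end Pool.Agent.RandomMakerLower
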