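import Mathlib

/-!
# A subset in which every vertex has small cost
-/

namespace Pool.Agent.RandomMakerLower

open Finset

theorem subset_cost {V : Type*} [Fintype V] [DecidableEq V] (l : V → V → ℝ)
    (hsymm : ∀ u v, l u v = l v u) (hpos : ∀ u v, 0 ≤ l u v) (hdiag : ∀ u, l u u = 0)
    (c δ : ℝ) (hc : 0 < c) (hδ : 0 < δ)
    (hsum : ∑ u, ∑ v, l u v ≤ c * (Fintype.card V : ℝ) ^ 2) :
    ∃ A : Finset V, δ / (1 + δ) * (Fintype.card V : ℝ) ^ 2 ≤ (A.card : ℝ) ^ 2 ∧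
      ∀ u ∈ A, ∑ v ∈ A, l u v ≤ (1 + δ) * c * A.card := by
  let φ : Finset V → ℝ := fun A => (1 + δ) * c * (A.card : ℝ) ^ 2 - ∑ u ∈ A, ∑ v ∈ A, l u v
  obtain ⟨A, -, hmax⟩ := exists_max_image (univ : Finset (Finset V)) φ univ_nonempty
  refine ⟨A, ?_, ?_⟩
  · have h1 := hmax univ (mem_univ _)
    simp only [φ, card_univ] at h1
    have h2 : 0 ≤ ∑ u ∈ A, ∑ v ∈ A, l u v := sum_nonneg fun u _ => sum_nonneg fun v _ => hpos u v
    have h3 : δ * c * (Fintype.card V : ℝ) ^ 2 ≤ (1 + δ) * c * (A.card : ℝ) ^ 2 := by nlinarith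
    rw [div_mul_eq_mul_div, div_le_iff₀ (by linarith)]
    have h4 : c * (δ * (Fintype.card V : ℝ) ^ 2) ≤ c * ((A.card : ℝ) ^ 2 * (1 + δ)) := by
      nlinarith
    exact le_of_mul_le_mul_left h4 hc
  · intro u hu
    have h1 := hmax (A.erase u) (mem_univ _)
    simp only [φ] at h1
    have hcard : 1 ≤ A.card := card_pos.mpr ⟨u, hu⟩
    rw [card_erase_of_mem hu, Nat.cast_sub hcard, Nat.cast_one] at h1
    have h2 : ∑ x ∈ A, ∑ y ∈ A, l x y = ∑ x ∈ A.erase u, ∑ y ∈ A.erase u, l x y +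
        2 * ∑ y ∈ A, l u y := by
      have e1 : ∑ x ∈ A, ∑ y ∈ A, l x y = ∑ y ∈ A, l u y + ∑ x ∈ A.erase u, ∑ y ∈ A, l x y :=
        (add_sum_erase _ _ hu).symm
      have e2 : ∀ x ∈ A.erase u, ∑ y ∈ A, l x y = l x u + ∑ y ∈ A.erase u, l x y :=
        fun x _ => (add_sum_erase _ _ hu).symm
      rw [e1, sum_congr rfl e2, sum_add_distrib]
      have e3 : ∑ x ∈ A.erase u, l x u = ∑ y ∈ A, l u y := by
        rw [← add_sum_erase A (fun y => l u y) hu, hdiag, zero_add]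
        exact sum_congr rfl fun x _ => hsymm x u
      rw [e3]; ring
    rw [h2] at h1
    have hA1 : (1 : ℝ) ≤ A.card := by exact_mod_cast hcard
    have h5 : 0 < (1 + δ) * c := by positivity
    nlinarith

end Pool.Agent.RandomMakerLower
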