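import Pool.Agent.Work.MP_ecc80d_co.Lower.Events
import Pool.Agent.Work.MP_ecc80d_co.Lower.Cost
import Pool.Agent.Work.MP_ecc80d_co.Lower.Subset

/-!
# The statuses after `J = ⌊4T/9⌋` rounds
-/

namespace Pool.Agent.RandomMakerLower

open Pool.Agent.RandomMaker
open Finset hiding expect

variable {α : Type*} [DecidableEq α] {E : Finset α}

/-- The mixed kernel. -/
noncomputable def Wf (E : Finset α) (h : List (α × α)) (e : α) : ℝ := (Mf h e + Sf E h e) / 2

lemma Mf_eq_zero_or_one (h : List (α × α)) (e : α) : Mf h e = 0 ∨ Mf h e = 1 := by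
  unfold Mf; split_ifs <;> simp

lemma Mf_off {h : List (α × α)} (hv : Valid E h) {e : α} (he : e ∉ E) : Mf h e = 0 := by
  unfold Mf
  rw [if_neg]
  intro h1
  exact he (claimed_subset hv (makerSet_subset_claimed h h1))

lemma Sf_off {h : List (α × α)} {e : α} (he : e ∉ E) : Sf E h e = 0 := by
  unfold Sf
  rw [if_neg]
  tauto

lemma Wf_off {h : List (α × α)} (hv : Valid E h) {e : α} (he : e ∉ E) : Wf E h e = 0 := by
  unfold Wf
  rw [Mf_off hv he, Sf_off he]; simp

lemma Sf_bounds {h : List (α × α)} (hl : h.length = 4 * E.card / 9)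
    (hE : 9 ≤ E.card) (e : α) :
    0 ≤ Sf E h e ∧ Sf E h e ≤ 2 ∧ (e ∈ E → e ∉ makerSet h → 0 < Sf E h e) := by
  by_cases he : e ∈ E ∧ e ∉ makerSet h
  · have h1 : Sf E h e = kap E.card h e - 1 := by unfold Sf; rw [if_pos he]
    have h2 : 1 < kap E.card h e ∧ kap E.card h e ≤ 3 := by
      by_cases hc : e ∈ claimed h
      · obtain ⟨i, hi, hk⟩ := kap_breaker E.card hc he.2
        rw [hk]
        exact ⟨one_lt_kk (by omega) (by omega), kk_le_three (by omega) (by omega)⟩
      · rw [kap_free _ hc]
        exact ⟨one_lt_kk (by omega) (by omega), kk_le_three (by omega) (by omega)⟩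
    rw [h1]
    exact ⟨by linarith [h2.1], by linarith [h2.2], fun _ _ => by linarith [h2.1]⟩
  · have h1 : Sf E h e = 0 := by unfold Sf; rw [if_neg he]
    rw [h1]
    exact ⟨le_rfl, by norm_num, fun h2 h3 => absurd ⟨h2, h3⟩ he⟩

lemma Wf_bounds {h : List (α × α)} (hl : h.length = 4 * E.card / 9)
    (hE : 9 ≤ E.card) (e : α) :
    0 ≤ Wf E h e ∧ Wf E h e ≤ 1 ∧ (e ∈ E → 0 < Wf E h e) := by
  obtain ⟨h1, h2, h3⟩ := Sf_bounds hl hE e
  by_cases hm : e ∈ makerSet h
  · have e1 : Mf h e = 1 := by unfold Mf; rw [if_pos hm]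
    have e2 : Sf E h e = 0 := by unfold Sf; rw [if_neg]; tauto
    unfold Wf
    rw [e1, e2]
    norm_num
  · have e1 : Mf h e = 0 := by unfold Mf; rw [if_neg hm]
    unfold Wf
    rw [e1]
    refine ⟨by linarith, by linarith, fun he => ?_⟩
    have := h3 he hm
    linarith

/-- The cost of the claimed elements. -/
lemma cost_claimed : ∀ {h : List (α × α)}, Valid E h →
    ∑ e ∈ claimed h, -Real.log (Wf E h e) = h.length * Real.log 2 +
      ∑ i ∈ range h.length, -Real.log ((kk E.card (i + 1) - 1) / 2)
  | [], _ => by simp [claimed_nil]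
  | (m, b) :: h, hv => by
    obtain ⟨hv', hm, hb⟩ := hv
    have ih := cost_claimed hv'
    have hmE := (mem_sdiff.mp hm).1
    have hmc := (mem_sdiff.mp hm).2
    have hbE := (mem_sdiff.mp hb).1
    have hbc : b ∉ claimed h := fun hc => (mem_sdiff.mp hb).2 (mem_insert_of_mem hc)
    have hbm : b ≠ m := fun hc => (mem_sdiff.mp hb).2 (by rw [hc]; exact mem_insert_self _ _)
    have hbM : b ∉ makerSet h := fun hc => hbc (makerSet_subset_claimed h hc)
    rw [claimed_cons, sum_insert, sum_insert hbc]
    · have e1 : Wf E ((m, b) :: h) m = 1 / 2 := by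
        have a1 : Mf ((m, b) :: h) m = 1 := by
          unfold Mf; rw [if_pos]; rw [makerSet_cons]; exact mem_insert_self _ _
        have a2 : Sf E ((m, b) :: h) m = 0 := by
          unfold Sf; rw [if_neg]; rw [makerSet_cons]; simp
        unfold Wf; rw [a1, a2]; norm_num
      have e2 : Wf E ((m, b) :: h) b = (kk E.card (h.length + 1) - 1) / 2 := by
        have a1 : Mf ((m, b) :: h) b = 0 := by
          unfold Mf; rw [if_neg]; rw [makerSet_cons, mem_insert]; tauto
        have a2 : Sf E ((m, b) :: h) b = kk E.card (h.length + 1) - 1 := by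
          unfold Sf
          rw [if_pos]
          · simp only [kap, if_neg hbm, if_neg hbc]
            rw [kap_free _ hbc, kk_succ]
          · rw [makerSet_cons, mem_insert]; tauto
        unfold Wf; rw [a1, a2, zero_add]
      have e3 : ∀ e ∈ claimed h, Wf E ((m, b) :: h) e = Wf E h e := by
        intro e he
        have hem : e ≠ m := fun hc => hmc (hc ▸ he)
        have a1 : Mf ((m, b) :: h) e = Mf h e := by
          unfold Mf
          simp only [makerSet_cons, mem_insert, hem, false_or]
        have a2 : Sf E ((m, b) :: h) e = Sf E h e := by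
          unfold Sf
          simp only [makerSet_cons, mem_insert, hem, false_or, kap, if_false, if_pos he]
        unfold Wf; rw [a1, a2]
      rw [e1, e2, sum_congr rfl (fun e he => by rw [e3 e he]), ih, List.length_cons,
        sum_range_succ, show (1 / 2 : ℝ) = 2⁻¹ by norm_num, Real.log_inv]
      push_cast
      ring
    · rw [mem_insert]
      rintro (hc | hc)
      · exact hbm hc.symm
      · exact hmc hc

/-- The total cost. -/
lemma cost_total {h : List (α × α)} (hv : Valid E h) :
    ∑ e ∈ E, -Real.log (Wf E h e) = h.length * Real.log 2 +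
      ∑ i ∈ range h.length, -Real.log ((kk E.card (i + 1) - 1) / 2) +
      ((E.card : ℝ) - 2 * h.length) * (-Real.log ((kk E.card h.length - 1) / 2)) := by
  have hsub := claimed_subset hv
  rw [← sum_sdiff hsub, cost_claimed hv, add_comm]
  congr 1
  have hcard := card_free hv
  have h1 : ∀ e ∈ E \ claimed h, -Real.log (Wf E h e) =
      -Real.log ((kk E.card h.length - 1) / 2) := by
    intro e he
    have heE := (mem_sdiff.mp he).1
    have hec := (mem_sdiff.mp he).2
    have heM : e ∉ makerSet h := fun hc => hec (makerSet_subset_claimed h hc)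
    have a1 : Mf h e = 0 := by unfold Mf; rw [if_neg heM]
    have a2 : Sf E h e = kk E.card h.length - 1 := by
      unfold Sf; rw [if_pos ⟨heE, heM⟩, kap_free _ hec]
    unfold Wf
    rw [a1, a2, zero_add]
  rw [sum_congr rfl h1, sum_const, nsmul_eq_mul]
  congr 1
  rw [← hcard]
  push_cast
  ring

end Pool.Agent.RandomMakerLower
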